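import Mathlib

set_option autoImplicit false

open Filter Topology

namespace Pool.Agent.H19

/-- Weak-star limits of bounded families of functionals along ultrafilters. -/
theorem exists_weakstar_limit {𝕜 E ι : Type*} [RCLike 𝕜] [NormedAddCommGroup E] [NormedSpace 𝕜 E]
    (y : ι → (E →L[𝕜] 𝕜)) {R : ℝ} (hR : ∀ k, ‖y k‖ ≤ R) (U : Ultrafilter ι) :
    ∃ y0 : E →L[𝕜] 𝕜, ‖y0‖ ≤ R ∧ ∀ v, Tendsto (fun k => y k v) U (𝓝 (y0 v)) := by
  have hc := WeakDual.isCompact_closedBall (𝕜 := 𝕜) (E := E) 0 R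
  let z : ι → WeakDual 𝕜 E := fun k => StrongDual.toWeakDual (y k)
  obtain ⟨z0, hz0, hz⟩ := hc.ultrafilter_le_nhds (U.map z) (by
    rw [le_principal_iff]
    refine Filter.Eventually.of_forall (f := (U : Filter ι)) fun k => ?_
    change y k ∈ Metric.closedBall 0 R
    rw [mem_closedBall_zero_iff]
    exact hR k)
  refine ⟨WeakDual.toStrongDual z0, ?_, fun v => ?_⟩
  · have : WeakDual.toStrongDual z0 ∈ Metric.closedBall 0 R := hz0
    rwa [mem_closedBall_zero_iff] at this
  · have h1 : Continuous fun w : WeakDual 𝕜 E => w v := WeakDual.eval_continuous v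
    exact (h1.tendsto z0).comp hz

end Pool.Agent.H19
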