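import Pool.Agent.H19.CZero
import Pool.Agent.H19.WeakStar

set_option autoImplicit false

open Filter Topology

namespace Pool.Agent.H19

/-- Bessaga-Pelczynski: if `c_0` does not embed into `X`, then every WUC sequence is norm null. -/
theorem WUC.tendsto_zero {X : Type*} [NormedAddCommGroup X] [NormedSpace ℝ X] [CompleteSpace X]
    {x : ℕ → X} {C : ℝ} (h : WUC x C)
    (hX : ¬ ∃ (T : c0 →L[ℝ] X) (c : ℝ), 0 < c ∧ ∀ f : c0, c * ‖f‖ ≤ ‖T f‖) :
    Tendsto x atTop (𝓝 0) := by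
  by_contra hnot
  apply hX
  obtain ⟨ε, hε, hfreq⟩ : ∃ ε : ℝ, 0 < ε ∧ ∃ᶠ k in atTop, ε ≤ ‖x k‖ := by
    by_contra hcon
    push Not at hcon
    apply hnot
    rw [Metric.tendsto_nhds]
    intro ε hε
    refine (hcon ε hε).mono fun k hk => ?_
    rw [dist_zero_right]
    exact hk
  have hne : (atTop ⊓ 𝓟 {k | ε ≤ ‖x k‖}).NeBot := by
    rw [← frequently_mem_iff_neBot]
    exact hfreq
  set U : Ultrafilter ℕ := Ultrafilter.of (atTop ⊓ 𝓟 {k | ε ≤ ‖x k‖}) with hU_def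
  have hU1 : (U : Filter ℕ) ≤ atTop := (Ultrafilter.of_le _).trans inf_le_left
  have hU2 : ∀ᶠ k in (U : Filter ℕ), ε ≤ ‖x k‖ := by
    have : (U : Filter ℕ) ≤ 𝓟 {k | ε ≤ ‖x k‖} := (Ultrafilter.of_le _).trans inf_le_right
    exact this (mem_principal_self _)
  have hdual : ∀ k, ∃ g : X →L[ℝ] ℝ, ‖g‖ ≤ 1 ∧ g (x k) = ‖x k‖ := fun k =>
    exists_dual_vector'' ℝ (x k)
  choose y hy1 hy2 using hdual
  obtain ⟨y0, hy01, hy0⟩ := exists_weakstar_limit y hy1 U
  have h1 : ∀ᶠ k in (U : Filter ℕ), ε / 2 ≤ |(y k - y0) (x k)| := by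
    have h2 := h.tendsto_functional y0
    have h3 : ∀ᶠ k in (U : Filter ℕ), y0 (x k) < ε / 2 :=
      hU1 ((tendsto_order.1 h2).2 _ (by positivity))
    filter_upwards [hU2, h3] with k hk1 hk2
    refine le_trans ?_ (le_abs_self _)
    rw [sub_apply, hy2]
    linarith
  have h2 : ∀ m, Tendsto (fun k => (y k - y0) (x m)) (U : Filter ℕ) (𝓝 0) := by
    intro m
    have := (hy0 (x m)).sub_const (y0 (x m))
    rw [sub_self] at this
    exact this
  obtain ⟨σ, hσ1, hσ2, hσ3⟩ := h.extract (fun k => y k - y0) (δ := ε / 2) (η := ε / 4)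
    (by positivity) (U : Filter ℕ) hU1 h1 h2
  have h3 := (h.comp hσ1.injective).lower (fun n => y (σ n) - y0) (R := 2) (δ := ε / 2)
    (η := ε / 4) (fun n => by
      have h4 := norm_sub_le (y (σ n)) y0
      have h5 := hy1 (σ n)
      linarith) hσ2 (by positivity) hσ3
  refine ⟨(h.comp hσ1.injective).op, ε / 8, by positivity, fun f => ?_⟩
  have := h3 f
  linarith

end Pool.Agent.H19
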