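import Mathlib

set_option autoImplicit false

open Filter Topology
open scoped NNReal CompactlySupported

namespace Pool.Agent.H19

variable {K : Type*} [TopologicalSpace K] [CompactSpace K]

/-- values of `l` on functions dominated by `f` -/
def VSet (l : C(K, ℝ) →L[ℝ] ℝ) (f : C(K, ℝ)) : Set ℝ := {r | ∃ g : C(K, ℝ), (∀ t, |g t| ≤ f t) ∧ l g = r}

/-- variation of a functional -/
noncomputable def V (l : C(K, ℝ) →L[ℝ] ℝ) (f : C(K, ℝ)) : ℝ := sSup (VSet l f)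

variable (l : C(K, ℝ) →L[ℝ] ℝ) 

theorem zero_mem_VSet {f : C(K, ℝ)} (hf : ∀ t, 0 ≤ f t) : (0 : ℝ) ∈ VSet l f :=
  ⟨0, by simpa using hf, map_zero l⟩

theorem norm_le_of_abs_le {f g : C(K, ℝ)} (h : ∀ t, |g t| ≤ f t) : ‖g‖ ≤ ‖f‖ := by
  refine (ContinuousMap.norm_le _ (norm_nonneg _)).2 fun t => ?_
  exact (h t).trans ((le_abs_self _).trans (f.norm_coe_le_norm t))

theorem le_of_mem_VSet {f : C(K, ℝ)} {r : ℝ} (hr : r ∈ VSet l f) : r ≤ ‖l‖ * ‖f‖ := by
  obtain ⟨g, hg, rfl⟩ := hr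
  refine (le_abs_self _).trans ((l.le_opNorm g).trans ?_)
  gcongr
  exact norm_le_of_abs_le hg

theorem bddAbove_VSet (f : C(K, ℝ)) : BddAbove (VSet l f) := ⟨_, fun _ hr => le_of_mem_VSet l hr⟩

theorem le_V {f g : C(K, ℝ)} (h : ∀ t, |g t| ≤ f t) : l g ≤ V l f :=
  le_csSup (bddAbove_VSet l f) ⟨g, h, rfl⟩

theorem abs_le_V {f g : C(K, ℝ)} (h : ∀ t, |g t| ≤ f t) : |l g| ≤ V l f := by
  rw [abs_le]
  constructor
  · have := le_V l (f := f) (g := -g) (by simpa using h)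
    rw [map_neg] at this
    linarith
  · exact le_V l h

theorem V_nonneg {f : C(K, ℝ)} (hf : ∀ t, 0 ≤ f t) : 0 ≤ V l f :=
  le_csSup (bddAbove_VSet l f) (zero_mem_VSet l hf)

theorem V_le {f : C(K, ℝ)} (hf : ∀ t, 0 ≤ f t) : V l f ≤ ‖l‖ * ‖f‖ :=
  csSup_le ⟨0, zero_mem_VSet l hf⟩ fun _ hr => le_of_mem_VSet l hr

theorem V_add {f g : C(K, ℝ)} (hf : ∀ t, 0 ≤ f t) (hg : ∀ t, 0 ≤ g t) :
    V l (f + g) = V l f + V l g := by
  apply le_antisymm
  · refine csSup_le ⟨0, zero_mem_VSet l fun t => add_nonneg (hf t) (hg t)⟩ ?_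
    rintro _ ⟨h, hh, rfl⟩
    -- decompose `h`
    let h1 : C(K, ℝ) := ⟨fun t => max (- f t) (min (h t) (f t)), by fun_prop⟩
    have e1 : ∀ t, |h1 t| ≤ f t := by
      intro t
      have := hf t
      simp only [h1, ContinuousMap.coe_mk]
      rw [abs_le]
      constructor
      · exact le_max_left _ _
      · exact max_le (by linarith) (min_le_right _ _)
    have e2 : ∀ t, |(h - h1) t| ≤ g t := by
      intro t
      have h3 := hf t
      have h4 := hg t
      have h5 := hh t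
      simp only [ContinuousMap.add_apply, abs_le] at h5
      simp only [h1, ContinuousMap.sub_apply, ContinuousMap.coe_mk]
      rw [abs_le]
      rcases le_total (h t) (f t) with h6 | h6
      · rw [min_eq_left h6]
        rcases le_total (-f t) (h t) with h7 | h7
        · rw [max_eq_right h7]; constructor <;> linarith
        · rw [max_eq_left h7]; constructor <;> linarith
      · rw [min_eq_right h6, max_eq_right (by linarith)]
        constructor <;> linarith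
    have e3 : l h = l h1 + l (h - h1) := by rw [← map_add, add_sub_cancel]
    rw [e3]
    exact add_le_add (le_V l e1) (le_V l e2)
  · have h1 : ∀ r ∈ VSet l f, ∀ s ∈ VSet l g, r + s ≤ V l (f + g) := by
      rintro _ ⟨a, ha, rfl⟩ _ ⟨b, hb, rfl⟩
      rw [← map_add]
      refine le_V l fun t => ?_
      exact (abs_add_le _ _).trans (add_le_add (ha t) (hb t))
    have h2 : ∀ r ∈ VSet l f, r ≤ V l (f + g) - V l g := by
      intro r hr
      have : V l g ≤ V l (f + g) - r :=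
        csSup_le ⟨0, zero_mem_VSet l hg⟩ fun s hs => by linarith [h1 r hr s hs]
      linarith
    have h3 : V l f ≤ V l (f + g) - V l g := csSup_le ⟨0, zero_mem_VSet l hf⟩ h2
    linarith

theorem V_smul_le {f : C(K, ℝ)} (hf : ∀ t, 0 ≤ f t) {c : ℝ} (hc : 0 < c) :
    V l (c • f) ≤ c * V l f := by
  refine csSup_le ⟨0, zero_mem_VSet l fun t => mul_nonneg hc.le (hf t)⟩ ?_
  rintro _ ⟨g, hg, rfl⟩
  have h1 : l (c⁻¹ • g) ≤ V l f := by
    refine le_V l fun t => ?_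
    have := hg t
    simp only [ContinuousMap.smul_apply, smul_eq_mul] at this ⊢
    rw [abs_mul, abs_of_pos (inv_pos.2 hc), inv_mul_le_iff₀ hc]
    exact this
  rw [map_smul, smul_eq_mul, inv_mul_le_iff₀ hc] at h1
  exact h1

theorem V_smul {f : C(K, ℝ)} (hf : ∀ t, 0 ≤ f t) {c : ℝ} (hc : 0 ≤ c) :
    V l (c • f) = c * V l f := by
  rcases hc.eq_or_lt with rfl | hc
  · have h1 : V l (0 : C(K, ℝ)) = 0 := by
      have h2 := V_le l (f := (0 : C(K, ℝ))) (by simp)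
      have h3 := V_nonneg l (f := (0 : C(K, ℝ))) (by simp)
      rw [norm_zero, mul_zero] at h2
      exact le_antisymm h2 h3
    rw [zero_smul, h1, zero_mul]
  · apply le_antisymm (V_smul_le l hf hc)
    have h1 := V_smul_le l (f := c • f) (fun t => mul_nonneg hc.le (hf t)) (inv_pos.2 hc)
    rw [smul_smul, inv_mul_cancel₀ hc.ne', one_smul, inv_mul_eq_div, le_div_iff₀ hc] at h1
    linarith

theorem V_mono {f g : C(K, ℝ)} (hf : ∀ t, 0 ≤ f t) (h : ∀ t, f t ≤ g t) : V l f ≤ V l g := by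
  refine csSup_le ⟨0, zero_mem_VSet l hf⟩ ?_
  rintro _ ⟨a, ha, rfl⟩
  exact le_V l fun t => (ha t).trans (h t)

/-- Nonnegative additive homogeneous functional is continuous under bounded pointwise
convergence. -/
theorem dct [T2Space K] (ν : C(K, ℝ) → ℝ) (h0 : ∀ f : C(K, ℝ), (∀ t, 0 ≤ f t) → 0 ≤ ν f)
    (hadd : ∀ f g : C(K, ℝ), (∀ t, 0 ≤ f t) → (∀ t, 0 ≤ g t) → ν (f + g) = ν f + ν g)
    (hsmul : ∀ (c : ℝ) (f : C(K, ℝ)), 0 ≤ c → (∀ t, 0 ≤ f t) → ν (c • f) = c * ν f)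
    (ψ : ℕ → C(K, ℝ)) (hψ0 : ∀ k t, 0 ≤ ψ k t) (hψ1 : ∀ k t, ψ k t ≤ 1)
    (hψ : ∀ t, Tendsto (fun k => ψ k t) atTop (𝓝 0)) :
    Tendsto (fun k => ν (ψ k)) atTop (𝓝 0) := by
  classical
  let _ : MeasurableSpace K := borel K
  have _ : BorelSpace K := ⟨rfl⟩
  let toR : C_c(K, ℝ≥0) → C(K, ℝ) := fun φ => ⟨fun t => (φ t : ℝ), by fun_prop⟩
  have hpos : ∀ φ : C_c(K, ℝ≥0), ∀ t, 0 ≤ toR φ t := fun φ t => (φ t).2
  let Λ : C_c(K, ℝ≥0) →ₗ[ℝ≥0] ℝ≥0 :=
    { toFun := fun φ => (ν (toR φ)).toNNReal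
      map_add' := by
        intro φ φ'
        apply NNReal.coe_injective
        rw [NNReal.coe_add, Real.coe_toNNReal _ (h0 _ (hpos φ)),
          Real.coe_toNNReal _ (h0 _ (hpos φ')), Real.coe_toNNReal _ (h0 _ (hpos _)),
          ← hadd _ _ (hpos φ) (hpos φ')]
        congr 1
      map_smul' := by
        intro c φ
        apply NNReal.coe_injective
        rw [RingHom.id_apply, smul_eq_mul, NNReal.coe_mul, Real.coe_toNNReal _ (h0 _ (hpos φ)),
          Real.coe_toNNReal _ (h0 _ (hpos _)), ← hsmul c _ c.2 (hpos φ)]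
        congr 1 }
  let Ψ : ℕ → C_c(K, ℝ≥0) := fun k =>
    { toFun := fun t => (ψ k t).toNNReal
      continuous_toFun := by fun_prop
      hasCompactSupport' := HasCompactSupport.of_compactSpace _ }
  have hΨ' : ∀ k, toR (Ψ k) = ψ k := by
    intro k
    ext t
    exact Real.coe_toNNReal _ (hψ0 k t)
  have hΨ : ∀ k, (Λ (Ψ k) : ℝ) = ν (ψ k) := by
    intro k
    change ((ν (toR (Ψ k))).toNNReal : ℝ) = _
    rw [Real.coe_toNNReal _ (h0 _ (hpos _)), hΨ']
  have hint : ∀ k, ∫ t, ψ k t ∂(NNRealRMK.rieszMeasure Λ) = ν (ψ k) := by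
    intro k
    rw [← hΨ, ← NNRealRMK.integral_rieszMeasure Λ (Ψ k)]
    refine MeasureTheory.integral_congr_ae (Eventually.of_forall fun t => ?_)
    exact (Real.coe_toNNReal _ (hψ0 k t)).symm
  have h1 : Tendsto (fun k => ∫ t, ψ k t ∂(NNRealRMK.rieszMeasure Λ)) atTop
      (𝓝 (∫ _, (0 : ℝ) ∂(NNRealRMK.rieszMeasure Λ))) := by
    refine MeasureTheory.tendsto_integral_of_dominated_convergence (fun _ => (1 : ℝ)) ?_ ?_ ?_ ?_
    · intro k
      exact (ψ k).continuous.aestronglyMeasurable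
    · exact MeasureTheory.integrable_const 1
    · intro k
      refine Eventually.of_forall fun t => ?_
      rw [Real.norm_eq_abs, abs_of_nonneg (hψ0 k t)]
      exact hψ1 k t
    · exact Eventually.of_forall hψ
  simp only [hint, MeasureTheory.integral_zero] at h1
  exact h1

/-- Ultrafilter limits of variations. -/
theorem exists_limit_V [T2Space K] (l : ℕ → (C(K, ℝ) →L[ℝ] ℝ)) {R : ℝ} (hR : ∀ k, ‖l k‖ ≤ R)
    (U : Ultrafilter ℕ) :
    ∃ ν : C(K, ℝ) → ℝ,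
      (∀ f : C(K, ℝ), (∀ t, 0 ≤ f t) → Tendsto (fun k => V (l k) f) U (𝓝 (ν f))) ∧
      ∀ ψ : ℕ → C(K, ℝ), (∀ k t, 0 ≤ ψ k t) → (∀ k t, ψ k t ≤ 1) →
        (∀ t, Tendsto (fun k => ψ k t) atTop (𝓝 0)) → Tendsto (fun k => ν (ψ k)) atTop (𝓝 0) := by
  have hR0 : 0 ≤ R := (norm_nonneg (l 0)).trans (hR 0)
  have h1 : ∀ f : C(K, ℝ), (∀ t, 0 ≤ f t) → ∃ r, Tendsto (fun k => V (l k) f) U (𝓝 r) := by
    intro f hf
    have h2 : ∀ k, V (l k) f ∈ Set.Icc (0 : ℝ) (R * ‖f‖) := fun k =>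
      ⟨V_nonneg _ hf, (V_le _ hf).trans (by gcongr; exact hR k)⟩
    obtain ⟨r, _, hr⟩ := isCompact_Icc.ultrafilter_le_nhds (U.map fun k => V (l k) f) (by
      rw [le_principal_iff]
      exact Filter.Eventually.of_forall (f := (U : Filter ℕ)) h2)
    exact ⟨r, hr⟩
  classical
  let ν : C(K, ℝ) → ℝ := fun f => if hf : ∀ t, 0 ≤ f t then (h1 f hf).choose else 0
  have hν : ∀ f : C(K, ℝ), (∀ t, 0 ≤ f t) → Tendsto (fun k => V (l k) f) U (𝓝 (ν f)) := by
    intro f hf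
    have : ν f = (h1 f hf).choose := dif_pos hf
    rw [this]
    exact (h1 f hf).choose_spec
  refine ⟨ν, hν, fun ψ hψ0 hψ1 hψ => dct ν ?_ ?_ ?_ ψ hψ0 hψ1 hψ⟩
  · intro f hf
    exact ge_of_tendsto (hν f hf) (Eventually.of_forall fun k => V_nonneg _ hf)
  · intro f g hf hg
    have h3 := (hν f hf).add (hν g hg)
    refine tendsto_nhds_unique (hν (f + g) fun t => add_nonneg (hf t) (hg t)) ?_
    refine h3.congr fun k => ?_
    rw [V_add _ hf hg]
  · intro c f hc hf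
    have h3 := (hν f hf).const_mul c
    refine tendsto_nhds_unique (hν (c • f) fun t => mul_nonneg hc (hf t)) ?_
    refine h3.congr fun k => ?_
    rw [V_smul _ hf hc]

/-- A single functional is continuous under bounded pointwise convergence. -/
theorem functional_dct [T2Space K] (l : C(K, ℝ) →L[ℝ] ℝ) (ψ : ℕ → C(K, ℝ))
    (hψ0 : ∀ k t, 0 ≤ ψ k t) (hψ1 : ∀ k t, ψ k t ≤ 1)
    (hψ : ∀ t, Tendsto (fun k => ψ k t) atTop (𝓝 0)) :
    Tendsto (fun k => l (ψ k)) atTop (𝓝 0) := by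
  have h := dct (V l) (fun f hf => V_nonneg l hf) (fun f g hf hg => V_add l hf hg)
    (fun c f hc hf => V_smul l hf hc) ψ hψ0 hψ1 hψ
  rw [tendsto_zero_iff_abs_tendsto_zero]
  refine squeeze_zero (fun _ => abs_nonneg _) (fun k => ?_) h
  exact abs_le_V l fun t => by rw [abs_of_nonneg (hψ0 k t)]

end Pool.Agent.H19
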