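import Pool.Agent.H19.CZero
import Pool.Agent.H19.Variation

set_option autoImplicit false

open Filter Topology

namespace Pool.Agent.H19

variable {K : Type*} [TopologicalSpace K] [CompactSpace K]

theorem V_sum_le (l : C(K, ℝ) →L[ℝ] ℝ) (s : Finset ℕ) (g : ℕ → C(K, ℝ))
    (hg : ∀ i t, 0 ≤ g i t) : V l (∑ i ∈ s, g i) ≤ ∑ i ∈ s, V l (g i) := by
  classical
  induction s using Finset.induction_on with
  | empty =>
    simp only [Finset.sum_empty]
    have h2 := V_le l (f := (0 : C(K, ℝ))) (by simp)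
    rwa [norm_zero, mul_zero] at h2
  | insert a s ha ih =>
    rw [Finset.sum_insert ha, Finset.sum_insert ha, V_add l (hg a)]
    · linarith
    · intro t
      rw [ContinuousMap.sum_apply]
      exact Finset.sum_nonneg fun i _ => hg i t

/-- pairwise disjoint functions with values in `[0,1]` form a WUC sequence with constant one -/
theorem WUC_of_disjoint (h : ℕ → C(K, ℝ)) (h0 : ∀ i t, 0 ≤ h i t) (h1 : ∀ i t, h i t ≤ 1)
    (hd : ∀ i j t, i < j → h i t = 0 ∨ h j t = 0) : WUC h 1 := by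
  intro s c hc
  refine (ContinuousMap.norm_le _ zero_le_one).2 fun t => ?_
  rw [ContinuousMap.sum_apply]
  have hd' : ∀ i j, i ≠ j → h i t = 0 ∨ h j t = 0 := by
    intro i j hij
    rcases lt_or_gt_of_ne hij with h' | h'
    · exact hd i j t h'
    · exact (hd j i t h').symm
  by_cases hz : ∃ i ∈ s, h i t ≠ 0
  · obtain ⟨i, hi, hi'⟩ := hz
    rw [Finset.sum_eq_single_of_mem i hi]
    · rw [ContinuousMap.smul_apply, smul_eq_mul, norm_mul, Real.norm_eq_abs, Real.norm_eq_abs,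
        abs_of_nonneg (h0 i t)]
      exact mul_le_one₀ (hc i hi) (h0 i t) (h1 i t)
    · intro j _ hji
      have := (hd' j i hji).resolve_right hi'
      rw [ContinuousMap.smul_apply, this, smul_zero]
  · push Not at hz
    rw [Finset.sum_eq_zero]
    · simp
    · intro i hi
      rw [ContinuousMap.smul_apply, hz i hi, smul_zero]

/-- If `l k → l0` pointwise on `C(K)`, `0 ≤ ψ k ≤ 1`, `ψ k → 0` pointwise on `K`, but
`l k (ψ k)` does not tend to zero, then `c_0` is complemented in `C(K)`. -/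
theorem complemented_of_not_tendsto [T2Space K] (l : ℕ → (C(K, ℝ) →L[ℝ] ℝ))
    (l0 : C(K, ℝ) →L[ℝ] ℝ) {R : ℝ} (hR : ∀ k, ‖l k‖ ≤ R)
    (hl : ∀ f, Tendsto (fun k => l k f) atTop (𝓝 (l0 f)))
    (ψ : ℕ → C(K, ℝ)) (hψ0 : ∀ k t, 0 ≤ ψ k t) (hψ1 : ∀ k t, ψ k t ≤ 1)
    (hψ : ∀ t, Tendsto (fun k => ψ k t) atTop (𝓝 0))
    (hnot : ¬ Tendsto (fun k => l k (ψ k)) atTop (𝓝 0)) :
    ∃ (J : c0 →L[ℝ] C(K, ℝ)) (Q : C(K, ℝ) →L[ℝ] c0), Q.comp J = ContinuousLinearMap.id ℝ _ := by
  classical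
  -- differences
  set y : ℕ → (C(K, ℝ) →L[ℝ] ℝ) := fun k => l k - l0 with hy_def
  set R' : ℝ := R + ‖l0‖ with hR'_def
  have hR0 : 0 ≤ R := (norm_nonneg (l 0)).trans (hR 0)
  have hR'0 : 0 ≤ R' := add_nonneg hR0 (norm_nonneg l0)
  have hyR : ∀ k, ‖y k‖ ≤ R' := by
    intro k
    have h1 := norm_sub_le (l k) l0
    have h2 := hR k
    simp only [hy_def, hR'_def]
    linarith
  have hy0 : ∀ f, Tendsto (fun k => y k f) atTop (𝓝 0) := by
    intro f
    have := (hl f).sub_const (l0 f)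
    rw [sub_self] at this
    exact this
  have hl0 := functional_dct l0 ψ hψ0 hψ1 hψ
  have hnot' : ¬ Tendsto (fun k => y k (ψ k)) atTop (𝓝 0) := by
    intro h
    apply hnot
    have := h.add hl0
    rw [add_zero] at this
    refine this.congr fun k => ?_
    simp [hy_def]
  obtain ⟨ε, hε, hfreq⟩ : ∃ ε : ℝ, 0 < ε ∧ ∃ᶠ k in atTop, ε ≤ |y k (ψ k)| := by
    by_contra hcon
    push Not at hcon
    apply hnot'
    rw [Metric.tendsto_nhds]
    intro ε hε
    have := hcon ε hε
    refine this.mono fun k hk => ?_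
    rw [Real.dist_eq, sub_zero]
    exact hk
  -- the ultrafilter
  have hne : (atTop ⊓ 𝓟 {k | ε ≤ |y k (ψ k)|}).NeBot := by
    rw [← frequently_mem_iff_neBot]
    exact hfreq
  set U : Ultrafilter ℕ := Ultrafilter.of (atTop ⊓ 𝓟 {k | ε ≤ |y k (ψ k)|}) with hU_def
  have hU1 : (U : Filter ℕ) ≤ atTop := (Ultrafilter.of_le _).trans inf_le_left
  have hU2 : ∀ᶠ k in (U : Filter ℕ), ε ≤ |y k (ψ k)| := by
    have : (U : Filter ℕ) ≤ 𝓟 {k | ε ≤ |y k (ψ k)|} := (Ultrafilter.of_le _).trans inf_le_right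
    exact this (mem_principal_self _)
  obtain ⟨ν, hν, hνψ⟩ := exists_limit_V y hyR U
  have hνψ := hνψ ψ hψ0 hψ1 hψ
  set η : ℝ := ε / (4 * (R' + 1)) with hη_def
  have hη : 0 < η := by positivity
  set d : ℕ → ℝ := fun p => η * (ε / 8) * (1 / 2) ^ p with hd_def
  have hd0 : ∀ p, 0 < d p := fun p => by simp only [hd_def]; positivity
  obtain ⟨F, hF1, hF2⟩ := exists_seq_of_forall_finset_exists
    (fun a : ℕ × ℕ => ε ≤ |y a.2 (ψ a.2)| ∧ ν (ψ a.2) < d a.1)
    (fun a b : ℕ × ℕ => a.1 < b.1 ∧ a.2 < b.2 ∧ V (y b.2) (ψ a.2) < d a.1) (by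
    intro s hs
    have e1 : ∀ᶠ k in (U : Filter ℕ), ν (ψ k) < d (s.sup Prod.fst + 1) :=
      hU1 ((tendsto_order.1 hνψ).2 _ (hd0 _))
    have e2 : ∀ᶠ k in (U : Filter ℕ), ∀ a ∈ s, a.2 < k :=
      (Filter.eventually_all_finset s).2 fun a _ => hU1 (eventually_gt_atTop a.2)
    have e3 : ∀ᶠ k in (U : Filter ℕ), ∀ a ∈ s, V (y k) (ψ a.2) < d a.1 :=
      (Filter.eventually_all_finset s).2 fun a ha =>
        (tendsto_order.1 (hν (ψ a.2) (hψ0 a.2))).2 _ (hs a ha).2
    obtain ⟨k, hk0, hk1, hk2, hk3⟩ := (hU2.and (e1.and (e2.and e3))).exists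
    refine ⟨(s.sup Prod.fst + 1, k), ⟨hk0, hk1⟩, fun a ha => ⟨?_, hk2 a ha, hk3 a ha⟩⟩
    exact Nat.lt_succ_of_le (Finset.le_sup (f := Prod.fst) ha))
  set k : ℕ → ℕ := fun i => (F i).2 with hk_def
  have hk : StrictMono k := fun m n hmn => (hF2 m n hmn).2.1
  have hp : StrictMono (fun i => (F i).1) := fun m n hmn => (hF2 m n hmn).1
  -- the disjoint functions
  let w : ℕ → C(K, ℝ) := fun i => η • (1 : C(K, ℝ)) + η⁻¹ • ∑ j ∈ Finset.range i, ψ (k j)
  have hw : ∀ i t, w i t = η + η⁻¹ * ∑ j ∈ Finset.range i, ψ (k j) t := by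
    intro i t
    simp [w]
  have hS0 : ∀ i t, 0 ≤ ∑ j ∈ Finset.range i, ψ (k j) t := fun i t =>
    Finset.sum_nonneg fun j _ => hψ0 _ t
  have hw0 : ∀ i t, 0 ≤ w i t := by
    intro i t
    rw [hw]
    have := hS0 i t
    positivity
  let h : ℕ → C(K, ℝ) := fun i => ⟨fun t => max 0 (ψ (k i) t - w i t), by fun_prop⟩
  have hh : ∀ i t, h i t = max 0 (ψ (k i) t - w i t) := fun i t => rfl
  have hh0 : ∀ i t, 0 ≤ h i t := fun i t => by rw [hh]; exact le_max_left _ _
  have hh1 : ∀ i t, h i t ≤ 1 := fun i t => by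
    rw [hh]
    exact max_le zero_le_one (by linarith [hψ1 (k i) t, hw0 i t])
  have hdisj : ∀ i j t, i < j → h i t = 0 ∨ h j t = 0 := by
    intro i j t hij
    by_cases h1 : ψ (k i) t ≤ η
    · left
      rw [hh, max_eq_left]
      rw [hw]
      have := hS0 i t
      have : 0 ≤ η⁻¹ * ∑ j ∈ Finset.range i, ψ (k j) t := by positivity
      linarith
    · right
      push Not at h1
      rw [hh, max_eq_left]
      rw [hw]
      have h2 : ψ (k i) t ≤ ∑ l ∈ Finset.range j, ψ (k l) t :=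
        Finset.single_le_sum (f := fun l => ψ (k l) t) (fun l _ => hψ0 _ t)
          (Finset.mem_range.2 hij)
      have h3 : 1 ≤ η⁻¹ * ∑ l ∈ Finset.range j, ψ (k l) t := by
        rw [le_inv_mul_iff₀ hη]
        linarith
      linarith [hψ1 (k j) t]
  have hWUC := WUC_of_disjoint h hh0 hh1 hdisj
  -- lower bound
  have hlow : ∀ i, ε / 2 ≤ |y (k i) (h i)| := by
    intro i
    have h1 : |y (k i) (ψ (k i) - h i)| ≤ V (y (k i)) (w i) := by
      refine abs_le_V _ fun t => ?_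
      rw [ContinuousMap.sub_apply, hh]
      have h2 := hψ0 (k i) t
      have h3 := hw0 i t
      rcases le_total 0 (ψ (k i) t - w i t) with h4 | h4
      · rw [max_eq_right h4, abs_le]; constructor <;> linarith
      · rw [max_eq_left h4, abs_le]; constructor <;> linarith
    have h2 : V (y (k i)) (w i) ≤ ε / 2 := by
      have h3 : V (y (k i)) (w i) = V (y (k i)) (η • (1 : C(K, ℝ))) +
          V (y (k i)) (η⁻¹ • ∑ j ∈ Finset.range i, ψ (k j)) := by
        refine V_add _ (fun t => ?_) (fun t => ?_)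
        · simp [hη.le]
        · rw [ContinuousMap.smul_apply, ContinuousMap.sum_apply, smul_eq_mul]
          have := hS0 i t
          positivity
      have h4 : V (y (k i)) (η • (1 : C(K, ℝ))) ≤ ε / 4 := by
        refine (V_le _ fun t => by simp [hη.le]).trans ?_
        have h5 : ‖(η • (1 : C(K, ℝ)))‖ ≤ η := by
          refine (ContinuousMap.norm_le _ hη.le).2 fun t => ?_
          simp [abs_of_pos hη]
        calc ‖y (k i)‖ * ‖(η • (1 : C(K, ℝ)))‖ ≤ R' * η := by gcongr; exact hyR _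
          _ ≤ (R' + 1) * η := by gcongr; linarith
          _ = ε / 4 := by rw [hη_def]; field_simp
      have h5 : V (y (k i)) (η⁻¹ • ∑ j ∈ Finset.range i, ψ (k j)) ≤ ε / 4 := by
        rw [V_smul _ (fun t => by rw [ContinuousMap.sum_apply]; exact hS0 i t)
          (inv_nonneg.2 hη.le)]
        have h6 : V (y (k i)) (∑ j ∈ Finset.range i, ψ (k j)) ≤ η * (ε / 4) := by
          refine (V_sum_le _ _ (fun j => ψ (k j)) (fun j t => hψ0 _ t)).trans ?_
          calc ∑ j ∈ Finset.range i, V (y (k i)) (ψ (k j))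
              ≤ ∑ j ∈ Finset.range i, η * (ε / 8) * (1 / 2) ^ j := by
                refine Finset.sum_le_sum fun j hj => ?_
                refine (hF2 j i (Finset.mem_range.1 hj)).2.2.le.trans ?_
                have : (1 / 2 : ℝ) ^ (F j).1 ≤ (1 / 2) ^ j :=
                  pow_le_pow_of_le_one (by norm_num) (by norm_num) (hp.le_apply)
                simp only [hd_def]
                gcongr
            _ = η * (ε / 8) * ∑ j ∈ Finset.range i, (1 / 2 : ℝ) ^ j := by rw [Finset.mul_sum]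
            _ ≤ η * (ε / 8) * 2 := by
                gcongr
                refine (summable_geometric_two.sum_le_tsum _ (fun i _ => by positivity)).trans ?_
                rw [tsum_geometric_two]
            _ = η * (ε / 4) := by ring
        rw [inv_mul_le_iff₀ hη]
        exact h6
      linarith
    have h3 := (hF1 i).1
    have h4 : |y (k i) (ψ (k i))| ≤ |y (k i) (h i)| + |y (k i) (ψ (k i) - h i)| := by
      have : y (k i) (ψ (k i)) = y (k i) (h i) + y (k i) (ψ (k i) - h i) := by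
        rw [← map_add]; congr 1; abel
      rw [this]
      exact abs_add_le _ _
    change ε ≤ |y (k i) (ψ (k i))| at h3
    linarith
  -- second extraction
  obtain ⟨σ, hσ1, hσ2, hσ3⟩ := hWUC.extract (fun i => y (k i)) (δ := ε / 2) (η := ε / 2 / 2)
    (by positivity) atTop le_rfl (Eventually.of_forall hlow)
    (fun m => (hy0 (h m)).comp hk.tendsto_atTop)
  obtain ⟨Q, hQ⟩ := (hWUC.comp hσ1.injective).exists_proj (fun i => y (k (σ i))) (δ := ε / 2)
    (by positivity) hσ2 hσ3 (fun v => (hy0 v).comp (hk.comp hσ1).tendsto_atTop)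
    (fun n => hyR _)
  exact ⟨_, Q, hQ⟩

end Pool.Agent.H19
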