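import Mathlib

set_option autoImplicit false

open Filter Topology

namespace Pool.Agent.H19

/-- the space `c_0` -/
abbrev c0 := ZeroAtInftyContinuousMap ℕ ℝ

theorem c0_norm_apply_le (f : c0) (n : ℕ) : |f n| ≤ ‖f‖ := f.toBCF.norm_coe_le_norm n

theorem c0_norm_le (f : c0) {C : ℝ} (hC : 0 ≤ C) (h : ∀ n, |f n| ≤ C) : ‖f‖ ≤ C :=
  (f.toBCF.norm_le hC).2 h

theorem c0_tendsto (f : c0) : Tendsto f atTop (𝓝 0) := by
  have := f.zero_at_infty'
  rwa [cocompact_eq_cofinite, Nat.cofinite_eq_atTop] at this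

/-- the element of `c_0` given by a null sequence -/
def c0mk (u : ℕ → ℝ) (hu : Tendsto u atTop (𝓝 0)) : c0 where
  toFun := u
  continuous_toFun := continuous_of_discreteTopology
  zero_at_infty' := by rwa [cocompact_eq_cofinite, Nat.cofinite_eq_atTop]

@[simp] theorem c0mk_apply (u : ℕ → ℝ) (hu : Tendsto u atTop (𝓝 0)) (n : ℕ) :
    c0mk u hu n = u n := rfl

section WUC

variable {Y : Type*} [NormedAddCommGroup Y] [NormedSpace ℝ Y]

/-- weakly unconditionally Cauchy, with constant `C` -/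
def WUC (x : ℕ → Y) (C : ℝ) : Prop :=
  ∀ (s : Finset ℕ) (c : ℕ → ℝ), (∀ i ∈ s, |c i| ≤ 1) → ‖∑ i ∈ s, c i • x i‖ ≤ C

variable {x : ℕ → Y} {C : ℝ}

theorem WUC.nonneg (h : WUC x C) : 0 ≤ C := by
  have := h ∅ 0 (by simp)
  simpa using this

theorem WUC.norm_le (h : WUC x C) (n : ℕ) : ‖x n‖ ≤ C := by
  have := h {n} 1 (by simp)
  simpa using this

theorem WUC.scaled (h : WUC x C) (s : Finset ℕ) (c : ℕ → ℝ) {r : ℝ} (hr : 0 ≤ r)
    (hc : ∀ i ∈ s, |c i| ≤ r) : ‖∑ i ∈ s, c i • x i‖ ≤ r * C := by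
  rcases hr.eq_or_lt with rfl | hr
  · have : ∑ i ∈ s, c i • x i = 0 := by
      refine Finset.sum_eq_zero fun i hi => ?_
      have : c i = 0 := by
        have := hc i hi
        exact abs_nonpos_iff.1 this
      rw [this, zero_smul]
    rw [this]; simp
  · have h1 := h s (fun i => c i / r) (fun i hi => by
      rw [abs_div, abs_of_pos hr]
      exact (div_le_one hr).2 (hc i hi))
    have h2 : ∑ i ∈ s, c i • x i = r • ∑ i ∈ s, (c i / r) • x i := by
      rw [Finset.smul_sum]
      refine Finset.sum_congr rfl fun i _ => ?_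
      rw [smul_smul, mul_div_cancel₀ _ hr.ne']
    rw [h2, norm_smul, Real.norm_of_nonneg hr.le]
    gcongr

theorem WUC.comp (h : WUC x C) {σ : ℕ → ℕ} (hσ : Function.Injective σ) : WUC (x ∘ σ) C := by
  intro s c hc
  have h1 := h (s.map ⟨σ, hσ⟩) (fun j => if hj : ∃ i ∈ s, σ i = j then c hj.choose else 0) (by
    intro j hj
    rw [Finset.mem_map] at hj
    obtain ⟨i, hi, rfl⟩ := hj
    have hj : ∃ i' ∈ s, σ i' = σ i := ⟨i, hi, rfl⟩
    simp only [Function.Embedding.coeFn_mk]
    rw [dif_pos hj]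
    exact hc _ hj.choose_spec.1)
  rw [Finset.sum_map] at h1
  convert h1 using 2
  refine Finset.sum_congr rfl fun i hi => ?_
  have hj : ∃ i' ∈ s, σ i' = σ i := ⟨i, hi, rfl⟩
  simp only [Function.Embedding.coeFn_mk, Function.comp]
  rw [dif_pos hj]
  have : hj.choose = i := hσ hj.choose_spec.2
  rw [this]

theorem WUC.sum_functional (h : WUC x C) (y : Y →L[ℝ] ℝ) (s : Finset ℕ) :
    ∑ i ∈ s, |y (x i)| ≤ ‖y‖ * C := by
  have h1 := h s (fun i => SignType.sign (y (x i))) (fun i _ => by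
    rcases lt_trichotomy (y (x i)) 0 with h | h | h
    · simp [sign_neg h]
    · simp [h]
    · simp [sign_pos h])
  have h2 : ∑ i ∈ s, |y (x i)| = y (∑ i ∈ s, ((SignType.sign (y (x i)) : ℝ)) • x i) := by
    rw [map_sum]
    refine Finset.sum_congr rfl fun i _ => ?_
    rw [map_smul, smul_eq_mul, sign_mul_self]
  rw [h2]
  exact (le_abs_self _).trans ((y.le_opNorm _).trans (by gcongr))

theorem WUC.summable_functional (h : WUC x C) (y : Y →L[ℝ] ℝ) :
    Summable fun i => |y (x i)| :=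
  summable_of_sum_le (fun _ => abs_nonneg _) (h.sum_functional y)

theorem WUC.tendsto_functional (h : WUC x C) (y : Y →L[ℝ] ℝ) :
    Tendsto (fun i => y (x i)) atTop (𝓝 0) := by
  have := (h.summable_functional y).tendsto_atTop_zero
  rw [tendsto_zero_iff_abs_tendsto_zero]
  exact this

variable [CompleteSpace Y]

theorem WUC.summable (h : WUC x C) (f : c0) : Summable fun i => f i • x i := by
  rw [summable_iff_vanishing_norm]
  intro ε hε
  have h1 : ∀ᶠ i in cofinite, |f i| < ε / (C + 1) := by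
    rw [Nat.cofinite_eq_atTop]
    have h2 := (c0_tendsto f)
    rw [tendsto_zero_iff_abs_tendsto_zero] at h2
    exact (tendsto_order.1 h2).2 _ (div_pos hε (by linarith [h.nonneg]))
  rw [Filter.eventually_cofinite] at h1
  refine ⟨h1.toFinset, fun t ht => ?_⟩
  have h3 : ∀ i ∈ t, |f i| ≤ ε / (C + 1) := by
    intro i hi
    by_contra hcon
    push Not at hcon
    have : i ∈ h1.toFinset := by
      rw [Set.Finite.mem_toFinset]
      exact not_lt.2 hcon.le
    exact (Finset.disjoint_left.1 ht hi) this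
  refine lt_of_le_of_lt (h.scaled t f (by have := h.nonneg; positivity) h3) ?_
  rw [div_mul_eq_mul_div, div_lt_iff₀ (by linarith [h.nonneg])]
  nlinarith [h.nonneg]

theorem WUC.norm_tsum_le (h : WUC x C) (f : c0) : ‖∑' i, f i • x i‖ ≤ C * ‖f‖ := by
  have h1 := (h.summable f).hasSum
  refine le_of_tendsto h1.norm (Eventually.of_forall fun s => ?_)
  rw [mul_comm]
  exact h.scaled s f (norm_nonneg _) (fun i _ => c0_norm_apply_le f i)

/-- the operator `c_0 → Y`, `f ↦ ∑ f i • x i` -/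
noncomputable def WUC.op (h : WUC x C) : c0 →L[ℝ] Y :=
  LinearMap.mkContinuous
    { toFun := fun f => ∑' i, f i • x i
      map_add' := by
        intro f g
        rw [← Summable.tsum_add (h.summable f) (h.summable g)]
        refine tsum_congr fun i => ?_
        rw [ZeroAtInftyContinuousMap.add_apply, add_smul]
      map_smul' := by
        intro c f
        rw [RingHom.id_apply, ← (h.summable f).tsum_const_smul]
        refine tsum_congr fun i => ?_
        rw [ZeroAtInftyContinuousMap.smul_apply, smul_assoc] } C h.norm_tsum_le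

theorem WUC.op_apply (h : WUC x C) (f : c0) : h.op f = ∑' i, f i • x i := rfl

theorem WUC.functional_op (h : WUC x C) (f : c0) (y : Y →L[ℝ] ℝ) :
    HasSum (fun i => f i * y (x i)) (y (h.op f)) := by
  have h1 := (h.summable f).hasSum
  have h2 := y.hasSum h1
  simpa [WUC.op_apply] using h2

/-- diagonal dominance -/
theorem WUC.diag (h : WUC x C) (f : c0) (y : Y →L[ℝ] ℝ) (n : ℕ) {η : ℝ}
    (hy : ∀ s : Finset ℕ, n ∉ s → ∑ m ∈ s, |y (x m)| ≤ η) :
    |y (h.op f) - f n * y (x n)| ≤ η * ‖f‖ := by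
  have h1 := h.functional_op f y
  have h2 : HasSum (fun i => if i = n then f n * y (x n) else 0) (f n * y (x n)) := by
    convert hasSum_ite_eq n (f n * y (x n))
  have h3 := h1.sub h2
  rw [← Real.norm_eq_abs]
  refine le_of_tendsto h3.norm (Eventually.of_forall fun s => ?_)
  classical
  have h4 : ∑ i ∈ s, (f i * y (x i) - if i = n then f n * y (x n) else 0) =
      ∑ i ∈ s.erase n, f i * y (x i) := by
    rw [← Finset.filter_ne' s n, Finset.sum_filter]
    refine Finset.sum_congr rfl fun i _ => ?_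
    by_cases hi : i = n
    · subst hi; simp
    · simp [hi]
  rw [h4, Real.norm_eq_abs]
  calc |∑ i ∈ s.erase n, f i * y (x i)| ≤ ∑ i ∈ s.erase n, |f i * y (x i)| :=
        Finset.abs_sum_le_sum_abs _ _
    _ ≤ ∑ i ∈ s.erase n, |y (x i)| * ‖f‖ := by
        refine Finset.sum_le_sum fun i _ => ?_
        rw [abs_mul, mul_comm]
        gcongr
        exact c0_norm_apply_le f i
    _ = (∑ i ∈ s.erase n, |y (x i)|) * ‖f‖ := by rw [Finset.sum_mul]
    _ ≤ η * ‖f‖ := by
        gcongr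
        exact hy _ (Finset.notMem_erase n s)

/-- lower estimate -/
theorem WUC.lower (h : WUC x C) (y : ℕ → (Y →L[ℝ] ℝ)) {R δ η : ℝ} (hR : ∀ n, ‖y n‖ ≤ R)
    (hd : ∀ n, δ ≤ |y n (x n)|) (hη : 0 ≤ η)
    (ho : ∀ n, ∀ s : Finset ℕ, n ∉ s → ∑ m ∈ s, |y n (x m)| ≤ η) (f : c0) :
    (δ - η) * ‖f‖ ≤ R * ‖h.op f‖ := by
  have hR0 : 0 ≤ R := (norm_nonneg _).trans (hR 0)
  rcases le_or_gt δ 0 with hδ | hδ
  · have h1 : (δ - η) * ‖f‖ ≤ 0 := mul_nonpos_of_nonpos_of_nonneg (by linarith) (norm_nonneg _)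
    have h2 : 0 ≤ R * ‖h.op f‖ := by positivity
    linarith
  have key : ∀ n, |f n| ≤ (R * ‖h.op f‖ + η * ‖f‖) / δ := by
    intro n
    rw [le_div_iff₀ hδ]
    have h1 := h.diag f (y n) n (ho n)
    have h2 : |y n (h.op f)| ≤ R * ‖h.op f‖ := by
      have := (y n).le_opNorm (h.op f)
      rw [Real.norm_eq_abs] at this
      exact this.trans (by gcongr; exact hR n)
    have h3 : |f n| * δ ≤ |f n * y n (x n)| := by
      rw [abs_mul]
      gcongr
      exact hd n
    have h4 : |f n * y n (x n)| ≤ |y n (h.op f)| + |y n (h.op f) - f n * y n (x n)| := by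
      have := abs_sub (y n (h.op f)) (y n (h.op f) - f n * y n (x n))
      simpa using this
    linarith
  have h5 := c0_norm_le f (C := (R * ‖h.op f‖ + η * ‖f‖) / δ)
    (by positivity) key
  rw [le_div_iff₀ hδ] at h5
  linarith

/-- projection -/
theorem WUC.exists_proj (h : WUC x C) (y : ℕ → (Y →L[ℝ] ℝ)) {δ : ℝ} (hδ : 0 < δ)
    (hd : ∀ n, δ ≤ |y n (x n)|)
    (ho : ∀ n, ∀ s : Finset ℕ, n ∉ s → ∑ m ∈ s, |y n (x m)| ≤ δ / 2)
    (hy : ∀ v, Tendsto (fun n => y n v) atTop (𝓝 0)) {R : ℝ} (hR : ∀ n, ‖y n‖ ≤ R) :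
    ∃ Q : Y →L[ℝ] c0, Q.comp h.op = ContinuousLinearMap.id ℝ _ := by
  have hR0 : 0 ≤ R := (norm_nonneg _).trans (hR 0)
  have hne : ∀ n, y n (x n) ≠ 0 := fun n hn => by
    have := hd n
    rw [hn, abs_zero] at this
    linarith
  have ht : ∀ v, Tendsto (fun n => y n v / y n (x n)) atTop (𝓝 0) := by
    intro v
    rw [tendsto_zero_iff_abs_tendsto_zero]
    have h1 : Tendsto (fun n => |y n v| / δ) atTop (𝓝 0) := by
      have h2 := (hy v)
      rw [tendsto_zero_iff_abs_tendsto_zero] at h2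
      simpa using h2.div_const δ
    refine squeeze_zero (fun _ => abs_nonneg _) (fun n => ?_) h1
    simp only [Function.comp]
    rw [abs_div]
    gcongr
    exact hd n
  let P : Y →L[ℝ] c0 := LinearMap.mkContinuous
    { toFun := fun v => c0mk (fun n => y n v / y n (x n)) (ht v)
      map_add' := by
        intro v w
        ext n
        simp [add_div]
      map_smul' := by
        intro c v
        ext n
        simp [mul_div_assoc] } (R / δ) (by
      intro v
      refine c0_norm_le _ (by positivity) fun n => ?_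
      simp only [LinearMap.coe_mk, AddHom.coe_mk, c0mk_apply]
      rw [abs_div, div_mul_eq_mul_div]
      have h1 : |y n v| ≤ R * ‖v‖ := by
        have := (y n).le_opNorm v
        rw [Real.norm_eq_abs] at this
        exact this.trans (by gcongr; exact hR n)
      gcongr
      exact hd n)
  have hP : ∀ v n, P v n = y n v / y n (x n) := fun v n => rfl
  have h1 : ‖ContinuousLinearMap.id ℝ c0 - P.comp h.op‖ ≤ 1 / 2 := by
    refine ContinuousLinearMap.opNorm_le_bound _ (by norm_num) fun f => ?_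
    refine c0_norm_le _ (by positivity) fun n => ?_
    have h2 : (ContinuousLinearMap.id ℝ c0 - P.comp h.op) f n =
        - ((y n (h.op f) - f n * y n (x n)) / y n (x n)) := by
      simp only [sub_apply, ContinuousLinearMap.id_apply,
        ContinuousLinearMap.comp_apply, ZeroAtInftyContinuousMap.sub_apply, hP]
      rw [sub_div, mul_div_assoc, div_self (hne n)]
      ring
    rw [h2, abs_neg, abs_div, div_le_iff₀ (abs_pos.2 (hne n))]
    have h3 := h.diag f (y n) n (ho n)
    have h4 := hd n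
    have h5 : δ / 2 * ‖f‖ ≤ 1 / 2 * ‖f‖ * |y n (x n)| := by
      nlinarith [norm_nonneg f]
    linarith
  have h6 : IsUnit (P.comp h.op) := by
    have h7 : ‖(1 : c0 →L[ℝ] c0) - P.comp h.op‖ < 1 := by
      refine lt_of_le_of_lt h1 (by norm_num)
    have h8 : IsUnit ((1 : c0 →L[ℝ] c0) - (1 - P.comp h.op)) :=
      isUnit_one_sub_of_norm_lt_one (R := c0 →L[ℝ] c0) h7
    have h9 : ((1 : c0 →L[ℝ] c0) - (1 - P.comp h.op)) = P.comp h.op := by
      ext f n
      simp
    exact h9 ▸ h8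
  obtain ⟨u, hu⟩ := h6
  refine ⟨(↑u⁻¹ : c0 →L[ℝ] c0).comp P, ?_⟩
  rw [ContinuousLinearMap.comp_assoc, ← hu]
  exact u.inv_mul

omit [CompleteSpace Y] in
/-- extraction of an almost biorthogonal subsequence -/
theorem WUC.extract (h : WUC x C) (y : ℕ → (Y →L[ℝ] ℝ)) {δ η : ℝ} (hη : 0 < η)
    (U : Filter ℕ) [U.NeBot] (hU : U ≤ atTop) (hd : ∀ᶠ n in U, δ ≤ |y n (x n)|)
    (hy : ∀ m, Tendsto (fun n => y n (x m)) U (𝓝 0)) :
    ∃ σ : ℕ → ℕ, StrictMono σ ∧ (∀ n, δ ≤ |y (σ n) (x (σ n))|) ∧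
      ∀ n, ∀ s : Finset ℕ, n ∉ s → ∑ m ∈ s, |y (σ n) (x (σ m))| ≤ η := by
  classical
  obtain ⟨σ, h1, h2⟩ := exists_seq_of_forall_finset_exists (fun n : ℕ => δ ≤ |y n (x n)|)
    (fun a b : ℕ => a < b ∧ |y b (x a)| ≤ η / 4 * (1 / 2) ^ a ∧
      ∀ s : Finset ℕ, (∀ i ∈ s, b ≤ i) → ∑ i ∈ s, |y a (x i)| ≤ η / 2) (by
    intro s _
    have e1 : ∀ᶠ b in U, ∀ a ∈ s, a < b :=
      (Filter.eventually_all_finset s).2 fun a _ => hU (eventually_gt_atTop a)
    have e2 : ∀ᶠ b in U, ∀ a ∈ s, |y b (x a)| ≤ η / 4 * (1 / 2) ^ a := by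
      refine (Filter.eventually_all_finset s).2 fun a _ => ?_
      have h3 := hy a
      rw [tendsto_zero_iff_abs_tendsto_zero] at h3
      have h4 := (tendsto_order.1 h3).2 (η / 4 * (1 / 2) ^ a) (by positivity)
      exact h4.mono fun b hb => hb.le
    have e3 : ∀ᶠ b in U, ∀ a ∈ s, ∀ t : Finset ℕ, (∀ i ∈ t, b ≤ i) →
        ∑ i ∈ t, |y a (x i)| ≤ η / 2 := by
      refine (Filter.eventually_all_finset s).2 fun a _ => ?_
      have h3 := h.summable_functional (y a)
      rw [summable_iff_vanishing_norm] at h3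
      obtain ⟨t0, ht0⟩ := h3 (η / 2) (by positivity)
      have h4 : ∀ᶠ b in U, ∀ i ∈ t0, i < b :=
        (Filter.eventually_all_finset t0).2 fun i _ => hU (eventually_gt_atTop i)
      refine h4.mono fun b hb t ht => ?_
      have h5 := ht0 t (by
        rw [Finset.disjoint_left]
        intro i hi hi'
        exact absurd (hb i hi') (not_lt.2 (ht i hi)))
      rw [Real.norm_eq_abs, abs_of_nonneg (Finset.sum_nonneg fun i _ => abs_nonneg _)] at h5
      exact h5.le
    obtain ⟨b, hb0, hb1, hb2, hb3⟩ := (hd.and (e1.and (e2.and e3))).exists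
    exact ⟨b, hb0, fun a ha => ⟨hb1 a ha, hb2 a ha, hb3 a ha⟩⟩)
  have hσ : StrictMono σ := fun m n hmn => (h2 m n hmn).1
  refine ⟨σ, hσ, h1, fun n s hn => ?_⟩
  rw [← Finset.sum_filter_add_sum_filter_not s (fun m => m < n)]
  have h3 : ∑ m ∈ s with m < n, |y (σ n) (x (σ m))| ≤ η / 2 := by
    calc ∑ m ∈ s with m < n, |y (σ n) (x (σ m))|
        ≤ ∑ m ∈ s with m < n, η / 4 * (1 / 2) ^ m := by
          refine Finset.sum_le_sum fun m hm => ?_
          rw [Finset.mem_filter] at hm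
          refine (h2 m n hm.2).2.1.trans ?_
          have : (1 / 2 : ℝ) ^ σ m ≤ (1 / 2) ^ m :=
            pow_le_pow_of_le_one (by norm_num) (by norm_num) (hσ.le_apply)
          gcongr
      _ = η / 4 * ∑ m ∈ s with m < n, (1 / 2 : ℝ) ^ m := by rw [Finset.mul_sum]
      _ ≤ η / 4 * 2 := by
          gcongr
          have h5 : Summable fun m : ℕ => (1 / 2 : ℝ) ^ m := summable_geometric_two
          refine (h5.sum_le_tsum _ (fun i _ => by positivity)).trans ?_
          rw [tsum_geometric_two]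
      _ = η / 2 := by ring
  have h4 : ∑ m ∈ s with ¬ m < n, |y (σ n) (x (σ m))| ≤ η / 2 := by
    rcases (s.filter fun m => ¬ m < n).eq_empty_or_nonempty with he | he
    · rw [he]; simp; positivity
    · have h5 := (h2 n (n + 1) (Nat.lt_succ_self n)).2.2
        ((s.filter fun m => ¬ m < n).map ⟨σ, hσ.injective⟩) (by
        intro i hi
        rw [Finset.mem_map] at hi
        obtain ⟨m, hm, rfl⟩ := hi
        rw [Finset.mem_filter] at hm
        simp only [Function.Embedding.coeFn_mk]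
        refine hσ.monotone ?_
        have : m ≠ n := fun hmn => hn (hmn ▸ hm.1)
        omega)
      rw [Finset.sum_map] at h5
      exact h5
  linarith

end WUC

end Pool.Agent.H19
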