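import Mathlib

set_option autoImplicit false

namespace Pool.Agent.H19

/-- `X` has the Daugavet property: `‖I + T‖ = 1 + ‖T‖` for every bounded operator `T` of rank
one on `X`. -/
def DaugavetProperty (𝕜 : Type*) [RCLike 𝕜] (X : Type*) [NormedAddCommGroup X]
    [NormedSpace 𝕜 X] : Prop :=
  ∀ T : X →L[𝕜] X, Module.finrank 𝕜 (LinearMap.range (T : X →ₗ[𝕜] X)) = 1 →
    ‖ContinuousLinearMap.id 𝕜 X + T‖ = 1 + ‖T‖

/-- `X` is `L`-embedded: the bidual is the direct sum of the canonical copy of `X` and of a closed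
subspace `Z`, and `‖x + z‖ = ‖x‖ + ‖z‖` for `x` in `X` and `z` in `Z`. -/
def IsLEmbedded (𝕜 : Type*) [RCLike 𝕜] (X : Type*) [NormedAddCommGroup X]
    [NormedSpace 𝕜 X] : Prop :=
  ∃ Z : Submodule 𝕜 (StrongDual 𝕜 (StrongDual 𝕜 X)),
    IsClosed (Z : Set (StrongDual 𝕜 (StrongDual 𝕜 X))) ∧
    IsCompl (LinearMap.range (NormedSpace.inclusionInDoubleDual 𝕜 X :
      X →ₗ[𝕜] StrongDual 𝕜 (StrongDual 𝕜 X))) Z ∧
    ∀ x : X, ∀ z ∈ Z, ‖NormedSpace.inclusionInDoubleDual 𝕜 X x + z‖ = ‖x‖ + ‖z‖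

/-- metric approximation property -/
def HasMAP (𝕜 : Type*) [RCLike 𝕜] (X : Type*) [NormedAddCommGroup X]
    [NormedSpace 𝕜 X] : Prop :=
  ∀ K : Set X, IsCompact K → ∀ ε : ℝ, 0 < ε → ∃ S : X →L[𝕜] X,
    FiniteDimensional 𝕜 (LinearMap.range (S : X →ₗ[𝕜] X)) ∧ ‖S‖ ≤ 1 ∧ ∀ x ∈ K, ‖S x - x‖ < ε

end Pool.Agent.H19
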