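import Mathlib

set_option autoImplicit false

open Filter Topology

namespace Pool.Agent.H19

section Unimodular

variable {𝕜 : Type*} [RCLike 𝕜]

/-- rotate a scalar to make it a nonnegative real -/
theorem exists_unimodular (c : 𝕜) : ∃ w : 𝕜, ‖w‖ = 1 ∧ w * c = (‖c‖ : 𝕜) := by
  by_cases hc : c = 0
  · exact ⟨1, by simp, by simp [hc]⟩
  · have hn : (‖c‖ : 𝕜) ≠ 0 := by
      rw [Ne, RCLike.ofReal_eq_zero]
      exact norm_ne_zero_iff.2 hc
    refine ⟨(‖c‖ : 𝕜) * c⁻¹, ?_, by rw [mul_assoc, inv_mul_cancel₀ hc, mul_one]⟩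
    rw [norm_mul, norm_inv, RCLike.norm_ofReal, abs_of_nonneg (norm_nonneg _)]
    exact mul_inv_cancel₀ (norm_ne_zero_iff.2 hc)

variable {X : Type*} [NormedAddCommGroup X] [NormedSpace 𝕜 X]

/-- a functional whose real part is bounded by `u` on the unit ball has norm at most `u` -/
theorem norm_le_of_re_le (ψ : X →L[𝕜] 𝕜) {u : ℝ} (h : ∀ x : X, ‖x‖ ≤ 1 → RCLike.re (ψ x) ≤ u) :
    ‖ψ‖ ≤ u := by
  by_contra hcon
  push Not at hcon
  obtain ⟨x, hx, hx'⟩ := ψ.exists_lt_apply_of_lt_opNorm hcon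
  obtain ⟨w, hw, hwc⟩ := exists_unimodular (ψ x)
  have h1 := h (w • x) (by rw [norm_smul, hw, one_mul]; exact hx.le)
  rw [map_smul, smul_eq_mul, hwc, RCLike.ofReal_re] at h1
  linarith

/-- near-norming vector with real part -/
theorem exists_re_ge (ψ : X →L[𝕜] 𝕜) {ε : ℝ} (hε : 0 < ε) :
    ∃ x : X, ‖x‖ ≤ 1 ∧ ‖ψ‖ - ε ≤ RCLike.re (ψ x) := by
  obtain ⟨x, hx, hx'⟩ := ψ.exists_lt_apply_of_lt_opNorm (r := ‖ψ‖ - ε) (by linarith)
  obtain ⟨w, hw, hwc⟩ := exists_unimodular (ψ x)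
  refine ⟨w • x, by rw [norm_smul, hw, one_mul]; exact hx.le, ?_⟩
  rw [map_smul, smul_eq_mul, hwc, RCLike.ofReal_re]
  exact hx'.le

end Unimodular

/-- Goldstine's theorem, finite form. -/
theorem goldstine {𝕜 X ι : Type*} [RCLike 𝕜] [NormedAddCommGroup X] [NormedSpace 𝕜 X]
    [Fintype ι] (z : StrongDual 𝕜 (StrongDual 𝕜 X)) (hz : ‖z‖ ≤ 1)
    (φ : ι → StrongDual 𝕜 X) {ε : ℝ} (hε : 0 < ε) :
    ∃ x : X, ‖x‖ ≤ 1 ∧ ∀ i, ‖φ i x - z (φ i)‖ < ε := by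
  classical
  let Φ : X →L[𝕜] (ι → 𝕜) := ContinuousLinearMap.pi φ
  have hΦ : ∀ x i, Φ x i = φ i x := fun x i => rfl
  let S : Set (ι → 𝕜) := closure (Φ '' {x | ‖x‖ ≤ 1})
  have hconv : Convex ℝ (Φ '' {x : X | ‖x‖ ≤ 1}) := by
    rintro _ ⟨x, hx, rfl⟩ _ ⟨y, hy, rfl⟩ a b ha hb hab
    refine ⟨(a : 𝕜) • x + (b : 𝕜) • y, ?_, ?_⟩
    · refine (norm_add_le _ _).trans ?_
      rw [norm_smul, norm_smul, RCLike.norm_ofReal, RCLike.norm_ofReal, abs_of_nonneg ha,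
        abs_of_nonneg hb]
      have hx' : ‖x‖ ≤ 1 := hx
      have hy' : ‖y‖ ≤ 1 := hy
      nlinarith
    · rw [map_add, map_smul, map_smul]
      rw [RCLike.real_smul_eq_coe_smul (K := 𝕜), RCLike.real_smul_eq_coe_smul (K := 𝕜)]
  have hmem : (fun i => z (φ i)) ∈ S := by
    by_contra hnot
    obtain ⟨g, u, hg1, hg2⟩ := RCLike.geometric_hahn_banach_closed_point (𝕜 := 𝕜)
      hconv.closure isClosed_closure hnot
    have h1 : ‖g.comp Φ‖ ≤ u := norm_le_of_re_le _ fun x hx =>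
      (hg1 _ (subset_closure ⟨x, hx, rfl⟩)).le
    have h2 : ∀ v : ι → 𝕜, g v = ∑ i, v i * g (Pi.single i 1) := by
      intro v
      conv_lhs => rw [pi_eq_sum_univ' v]
      rw [map_sum]
      refine Finset.sum_congr rfl fun i _ => ?_
      rw [map_smul, smul_eq_mul]
    have h3 : g.comp Φ = ∑ i, g (Pi.single i 1) • φ i := by
      ext x
      simp only [ContinuousLinearMap.comp_apply, sum_apply,
        smul_apply, smul_eq_mul]
      rw [h2]
      refine Finset.sum_congr rfl fun i _ => ?_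
      rw [hΦ, mul_comm]
    have h4 : z (g.comp Φ) = g fun i => z (φ i) := by
      rw [h3, map_sum, h2]
      refine Finset.sum_congr rfl fun i _ => ?_
      rw [map_smul, smul_eq_mul, mul_comm]
    have h5 : RCLike.re (z (g.comp Φ)) ≤ u := by
      refine (RCLike.re_le_norm _).trans ((z.le_opNorm _).trans ?_)
      calc ‖z‖ * ‖g.comp Φ‖ ≤ 1 * ‖g.comp Φ‖ := by gcongr
        _ ≤ u := by rw [one_mul]; exact h1
    rw [h4] at h5
    linarith
  obtain ⟨_, ⟨x, hx, rfl⟩, hdist⟩ := Metric.mem_closure_iff.1 hmem ε hε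
  refine ⟨x, hx, fun i => ?_⟩
  have := (dist_pi_lt_iff hε).1 hdist i
  rw [dist_comm, dist_eq_norm] at this
  exact this

end Pool.Agent.H19
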