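import Pool.Agent.H19.DaugavetDefs
import Pool.Agent.H19.Goldstine
import Pool.Agent.H19.WeakStar

set_option autoImplicit false

open Filter Topology

namespace Pool.Agent.H19

variable {𝕜 : Type*} [RCLike 𝕜] {X : Type*} [NormedAddCommGroup X] [NormedSpace 𝕜 X]

theorem DaugavetProperty.rank_one (hD : DaugavetProperty 𝕜 X) (f : X →L[𝕜] 𝕜) (x : X)
    (hf : f ≠ 0) (hx : x ≠ 0) :
    ‖ContinuousLinearMap.id 𝕜 X + f.smulRight x‖ = 1 + ‖f‖ * ‖x‖ := by
  have h1 : LinearMap.range ((f.smulRight x : X →L[𝕜] X) : X →ₗ[𝕜] X) = Submodule.span 𝕜 {x} := by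
    apply le_antisymm
    · rintro _ ⟨y, rfl⟩
      exact Submodule.smul_mem _ _ (Submodule.mem_span_singleton_self x)
    · rw [Submodule.span_singleton_le_iff_mem]
      obtain ⟨y, hy⟩ : ∃ y, f y ≠ 0 := by
        by_contra hcon
        push Not at hcon
        exact hf (ContinuousLinearMap.ext hcon)
      refine ⟨(f y)⁻¹ • y, ?_⟩
      simp [inv_smul_smul₀ hy]
  have h2 := hD (f.smulRight x) (by rw [h1]; exact finrank_span_singleton hx)
  rw [h2, ContinuousLinearMap.norm_smulRight_apply]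

theorem slice_step (hD : DaugavetProperty 𝕜 X) (f : X →L[𝕜] 𝕜) (hf : ‖f‖ = 1) (x0 : X)
    {δ ε : ℝ} (hδ : 0 < δ) (hε : 0 < ε) :
    ∃ (h : X →L[𝕜] 𝕜) (η : ℝ), ‖h‖ = 1 ∧ 0 < η ∧ ∀ y : X, ‖y‖ ≤ 1 → 1 - η ≤ RCLike.re (h y) →
      1 - δ ≤ RCLike.re (f y) ∧ ‖x0‖ + 1 - ε ≤ ‖x0 + y‖ := by
  by_cases hx0 : x0 = 0
  · refine ⟨f, min δ ε, hf, lt_min hδ hε, fun y hy hy' => ⟨?_, ?_⟩⟩
    · linarith [min_le_left δ ε]
    · rw [hx0, norm_zero, zero_add, zero_add]
      have h1 : RCLike.re (f y) ≤ ‖y‖ := by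
        refine (RCLike.re_le_norm _).trans ((f.le_opNorm y).trans ?_)
        rw [hf, one_mul]
      linarith [min_le_right δ ε]
  · have hf0 : f ≠ 0 := by
      rintro rfl
      simp at hf
    set r := ‖x0‖ with hr_def
    have hr : 0 < r := norm_pos_iff.2 hx0
    set δ' := min δ (1 / 2) with hδ'_def
    have hδ' : 0 < δ' := lt_min hδ (by norm_num)
    have hδ'1 : δ' ≤ 1 / 2 := min_le_right _ _
    have hδ'2 : δ' ≤ δ := min_le_left _ _
    set e := min 1 (min (δ' * r / 2) (ε / 3)) with he_def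
    have he : 0 < e := lt_min one_pos (lt_min (by positivity) (by positivity))
    have he1 : e ≤ 1 := min_le_left _ _
    have he2 : e ≤ δ' * r / 2 := (min_le_right _ _).trans (min_le_left _ _)
    have he3 : e ≤ ε / 3 := (min_le_right _ _).trans (min_le_right _ _)
    have h1 := hD.rank_one f x0 hf0 hx0
    rw [hf, one_mul] at h1
    obtain ⟨y0, hy0, hy0'⟩ := ContinuousLinearMap.exists_lt_apply_of_lt_opNorm
      (ContinuousLinearMap.id 𝕜 X + f.smulRight x0) (r := 1 + r - e) (by rw [h1]; linarith)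
    have h2 : (ContinuousLinearMap.id 𝕜 X + f.smulRight x0) y0 = y0 + f y0 • x0 := rfl
    rw [h2] at hy0'
    obtain ⟨g, hg1, hg2⟩ := exists_dual_vector'' 𝕜 (y0 + f y0 • x0)
    obtain ⟨w, hw, hwc⟩ := exists_unimodular (g x0)
    set c := ‖g x0‖ with hc_def
    have hc0 : 0 ≤ c := norm_nonneg _
    have hcr : c ≤ r := by
      refine (g.le_opNorm x0).trans ?_
      exact mul_le_of_le_one_left (norm_nonneg _) hg1
    set g' : X →L[𝕜] 𝕜 := w • g with hg'_def
    have hg' : ‖g'‖ ≤ 1 := by rw [hg'_def, norm_smul, hw, one_mul]; exact hg1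
    have hg'a : ∀ v, g' v = w * g v := fun v => rfl
    have hg'x : g' x0 = (c : 𝕜) := by rw [hg'a]; exact hwc
    set h0 : X →L[𝕜] 𝕜 := g' + (c : 𝕜) • f with hh0_def
    have hh0a : ∀ v, h0 v = g' v + (c : 𝕜) * f v := fun v => rfl
    have hh0y : h0 y0 = w * g (y0 + f y0 • x0) := by
      rw [hh0a, hg'a, map_add, map_smul, smul_eq_mul, ← hwc]
      ring
    have hh0n : 1 + r - e < ‖h0‖ := by
      have h3 : ‖h0 y0‖ = ‖y0 + f y0 • x0‖ := by
        rw [hh0y, norm_mul, hw, one_mul, hg2, RCLike.norm_ofReal, abs_of_nonneg (norm_nonneg _)]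
      have h4 := h0.le_opNorm y0
      have h5 : ‖h0‖ * ‖y0‖ ≤ ‖h0‖ := mul_le_of_le_one_right (norm_nonneg _) hy0.le
      linarith
    have hh0u : ‖h0‖ ≤ 1 + c := by
      have h3 : ‖(c : 𝕜) • f‖ = c := by
        rw [norm_smul, RCLike.norm_ofReal, abs_of_nonneg hc0, hf, mul_one]
      rw [hh0_def]
      refine (norm_add_le _ _).trans ?_
      rw [h3]
      linarith
    have hh0pos : 0 < ‖h0‖ := by linarith
    have hcl : r - e ≤ c := by linarith
    refine ⟨((‖h0‖⁻¹ : ℝ) : 𝕜) • h0, e / (1 + r), ?_, by positivity, fun y hy hy' => ?_⟩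
    · rw [norm_smul, RCLike.norm_ofReal, abs_of_pos (inv_pos.2 hh0pos),
        inv_mul_cancel₀ hh0pos.ne']
    · rw [smul_apply, smul_eq_mul, RCLike.re_ofReal_mul] at hy'
      have h3 : (1 - e / (1 + r)) * ‖h0‖ ≤ RCLike.re (h0 y) := by
        rw [inv_mul_eq_div, le_div_iff₀ hh0pos] at hy'
        exact hy'
      have h4 : e / (1 + r) ≤ 1 := by
        rw [div_le_one (by positivity)]
        linarith
      have h5 : 1 + r - 2 * e ≤ RCLike.re (h0 y) := by
        have h6 : (1 - e / (1 + r)) * (1 + r - e) ≤ (1 - e / (1 + r)) * ‖h0‖ := by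
          have : 0 ≤ 1 - e / (1 + r) := by linarith
          gcongr
        have h7 : (1 - e / (1 + r)) * (1 + r - e) = 1 + r - 2 * e + e ^ 2 / (1 + r) := by
          field_simp
          ring
        have h8 : 0 ≤ e ^ 2 / (1 + r) := by positivity
        linarith
      have h6 : RCLike.re (h0 y) = RCLike.re (g' y) + c * RCLike.re (f y) := by
        rw [hh0a, map_add, RCLike.re_ofReal_mul]
      have h7 : RCLike.re (g' y) ≤ 1 := by
        refine (RCLike.re_le_norm _).trans ((g'.le_opNorm y).trans ?_)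
        exact mul_le_one₀ hg' (norm_nonneg _) hy
      have h8 : RCLike.re (f y) ≤ 1 := by
        refine (RCLike.re_le_norm _).trans ((f.le_opNorm y).trans ?_)
        rw [hf, one_mul]
        exact hy
      have h9 : c * RCLike.re (f y) ≤ c := mul_le_of_le_one_right hc0 h8
      constructor
      · have h10 : r - 2 * e ≤ c * RCLike.re (f y) := by linarith
        have h11 : r * (1 - δ') ≤ r - 2 * e := by
          have : r * (1 - δ') = r - δ' * r := by ring
          linarith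
        have h12 : 0 < c * RCLike.re (f y) := by
          have : 0 < r * (1 - δ') := mul_pos hr (by linarith)
          linarith
        have h13 : 0 < RCLike.re (f y) := by
          by_contra hcon
          push Not at hcon
          have := mul_nonpos_of_nonneg_of_nonpos hc0 hcon
          linarith
        have h14 : c * RCLike.re (f y) ≤ r * RCLike.re (f y) := by gcongr
        have h15 : r * (1 - δ') ≤ r * RCLike.re (f y) := by linarith
        have h16 := le_of_mul_le_mul_left h15 hr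
        linarith
      · have h10 : 1 - 2 * e ≤ RCLike.re (g' y) := by linarith
        have h11 : RCLike.re (g' (x0 + y)) = c + RCLike.re (g' y) := by
          rw [map_add, map_add, hg'x, RCLike.ofReal_re]
        have h12 : RCLike.re (g' (x0 + y)) ≤ ‖x0 + y‖ := by
          refine (RCLike.re_le_norm _).trans ((g'.le_opNorm _).trans ?_)
          exact mul_le_of_le_one_left (norm_nonneg _) hg'
        linarith

theorem slice_finset (hD : DaugavetProperty 𝕜 X) (f : X →L[𝕜] 𝕜) (hf : ‖f‖ = 1) (W : Finset X)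
    {δ ε : ℝ} (hδ : 0 < δ) (hε : 0 < ε) :
    ∃ (h : X →L[𝕜] 𝕜) (η : ℝ), ‖h‖ = 1 ∧ 0 < η ∧ ∀ y : X, ‖y‖ ≤ 1 → 1 - η ≤ RCLike.re (h y) →
      1 - δ ≤ RCLike.re (f y) ∧ ∀ w ∈ W, ‖w‖ + 1 - ε ≤ ‖w + y‖ := by
  classical
  induction W using Finset.induction_on with
  | empty => exact ⟨f, δ, hf, hδ, fun y _ hy' => ⟨hy', by simp⟩⟩
  | insert a W ha ih =>
    obtain ⟨h, η, hh, hη, H⟩ := ih
    obtain ⟨h', η', hh', hη', H'⟩ := slice_step hD h hh a hη hε
    refine ⟨h', η', hh', hη', fun y hy hy' => ?_⟩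
    obtain ⟨h1, h2⟩ := H' y hy hy'
    obtain ⟨h3, h4⟩ := H y hy h1
    refine ⟨h3, fun w hw => ?_⟩
    rw [Finset.mem_insert] at hw
    rcases hw with rfl | hw
    · exact h2
    · exact h4 w hw

theorem exists_in_slice (hD : DaugavetProperty 𝕜 X) (f : X →L[𝕜] 𝕜) (hf : ‖f‖ = 1)
    (W : Finset X) {δ ε : ℝ} (hδ : 0 < δ) (hε : 0 < ε) :
    ∃ y : X, ‖y‖ ≤ 1 ∧ 1 - δ ≤ RCLike.re (f y) ∧ ∀ w ∈ W, ‖w‖ + 1 - ε ≤ ‖w + y‖ := by
  obtain ⟨h, η, hh, hη, H⟩ := slice_finset hD f hf W hδ hε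
  obtain ⟨y, hy, hy'⟩ := exists_re_ge h hη
  rw [hh] at hy'
  obtain ⟨h1, h2⟩ := H y hy hy'
  exact ⟨y, hy, h1, h2⟩

/-- strong recursion with a choice depending on the previous values -/
theorem exists_seq_strong {α : Type*} (Q : (n : ℕ) → (Fin n → α) → α → Prop)
    (h : ∀ n f, ∃ y, Q n f y) : ∃ g : ℕ → α, ∀ n, Q n (fun k => g k) (g n) := by
  let F : (n : ℕ) → ((m : ℕ) → m < n → α) → α := fun n f => (h n (fun k => f k.1 k.2)).choose
  let g : ℕ → α := fun n => WellFounded.fix Nat.lt_wfRel.wf F n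
  refine ⟨g, fun n => ?_⟩
  have h1 : g n = F n (fun m _ => g m) := WellFounded.fix_eq _ _ _
  rw [h1]
  exact (h n (fun k => g k)).choose_spec

/-- sign -/
def sg (b : Bool) (v : X) : X := if b then v else -v

theorem sg_neg (b : Bool) (v : X) : sg (!b) v = - sg b v := by
  cases b <;> simp [sg]

theorem exists_ell1_seq (hD : DaugavetProperty 𝕜 X) (f : X →L[𝕜] 𝕜) (hf : ‖f‖ = 1)
    {δ ε : ℝ} (hδ : 0 < δ) (hε : 0 < ε) :
    ∃ y : ℕ → X, (∀ n, ‖y n‖ ≤ 1) ∧ (∀ n, 1 - δ ≤ RCLike.re (f (y n))) ∧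
      ∀ (s : ℕ → Bool) (N : ℕ), (N : ℝ) - ε ≤ ‖∑ k ∈ Finset.range N, sg (s k) (y k)‖ := by
  classical
  obtain ⟨y, hy⟩ := exists_seq_strong (α := X) (fun n g v => ‖v‖ ≤ 1 ∧ 1 - δ ≤ RCLike.re (f v) ∧
    ∀ s : Fin n → Bool, ‖∑ k, sg (s k) (g k)‖ + 1 - ε * (1 / 2) ^ (n + 1) ≤
      ‖(∑ k, sg (s k) (g k)) + v‖) (by
    intro n g
    obtain ⟨v, hv1, hv2, hv3⟩ := exists_in_slice hD f hf
      (Finset.univ.image fun s : Fin n → Bool => ∑ k, sg (s k) (g k)) hδ
      (ε := ε * (1 / 2) ^ (n + 1)) (by positivity)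
    refine ⟨v, hv1, hv2, fun s => ?_⟩
    exact hv3 _ (Finset.mem_image.2 ⟨s, Finset.mem_univ _, rfl⟩))
  refine ⟨y, fun n => (hy n).1, fun n => (hy n).2.1, ?_⟩
  have key : ∀ (N : ℕ) (s : ℕ → Bool),
      (N : ℝ) - ε * (1 - (1 / 2) ^ N) ≤ ‖∑ k ∈ Finset.range N, sg (s k) (y k)‖ := by
    intro N
    induction N with
    | zero => intro s; simp
    | succ N ih =>
      intro s
      -- reduce to last sign positive
      have hlast : ∀ s : ℕ → Bool, s N = true →
          ((N + 1 : ℕ) : ℝ) - ε * (1 - (1 / 2) ^ (N + 1)) ≤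
            ‖∑ k ∈ Finset.range (N + 1), sg (s k) (y k)‖ := by
        intro s hs
        have h1 := (hy N).2.2 (fun k => s k)
        have h2 : ∑ k : Fin N, sg (s k) (y k) = ∑ k ∈ Finset.range N, sg (s k) (y k) :=
          Fin.sum_univ_eq_sum_range (fun k => sg (s k) (y k)) N
        rw [h2] at h1
        have h3 := ih s
        rw [Finset.sum_range_succ, hs]
        have h4 : sg true (y N) = y N := rfl
        rw [h4]
        push_cast
        have h5 : (1 / 2 : ℝ) ^ (N + 1) = (1 / 2) ^ N / 2 := by rw [pow_succ]; ring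
        rw [h5] at h1 ⊢
        linarith
      by_cases hs : s N = true
      · exact hlast s hs
      · have h1 := hlast (fun k => !(s k)) (by simpa using hs)
        have h2 : ∑ k ∈ Finset.range (N + 1), sg (!(s k)) (y k) =
            - ∑ k ∈ Finset.range (N + 1), sg (s k) (y k) := by
          rw [← Finset.sum_neg_distrib]
          exact Finset.sum_congr rfl fun k _ => sg_neg _ _
        rw [h2, norm_neg] at h1
        exact h1
  intro s N
  have h1 := key N s
  have h2 : 0 ≤ ε * (1 / 2 : ℝ) ^ N := by positivity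
  linarith

/-- Main consequence of the Daugavet property for `L`-embedded spaces: the singular part of the
bidual contains almost norming elements of the unit ball. -/
theorem exists_singular (hD : DaugavetProperty 𝕜 X)
    (Z : Submodule 𝕜 (StrongDual 𝕜 (StrongDual 𝕜 X)))
    (hZ : IsCompl (LinearMap.range (NormedSpace.inclusionInDoubleDual 𝕜 X :
      X →ₗ[𝕜] StrongDual 𝕜 (StrongDual 𝕜 X))) Z)
    (hn : ∀ x : X, ∀ z ∈ Z, ‖NormedSpace.inclusionInDoubleDual 𝕜 X x + z‖ = ‖x‖ + ‖z‖)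
    (f : StrongDual 𝕜 X) (hf : ‖f‖ = 1) {ε : ℝ} (hε : 0 < ε) :
    ∃ z ∈ Z, ‖z‖ ≤ 1 ∧ 1 - ε ≤ RCLike.re (z f) := by
  obtain ⟨y, hy1, hy2, hy3⟩ := exists_ell1_seq hD f hf (δ := ε / 2) (ε := ε / 4)
    (by positivity) (by positivity)
  set U : Ultrafilter ℕ := Filter.hyperfilter ℕ with hU_def
  have hU : (U : Filter ℕ) ≤ atTop := by
    rw [← Nat.cofinite_eq_atTop]
    exact Filter.hyperfilter_le_cofinite
  -- norming functionals
  have hg : ∀ m N : ℕ, ∃ g : StrongDual 𝕜 X, ‖g‖ ≤ 1 ∧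
      ∀ k < N, 1 - ε / 4 ≤ RCLike.re (g (sg (decide (k ≤ m)) (y k))) := by
    intro m N
    obtain ⟨g, hg1, hg2⟩ := exists_dual_vector'' 𝕜
      (∑ k ∈ Finset.range N, sg (decide (k ≤ m)) (y k))
    refine ⟨g, hg1, fun k hk => ?_⟩
    have h1 := hy3 (fun k => decide (k ≤ m)) N
    have h2 : RCLike.re (g (∑ k ∈ Finset.range N, sg (decide (k ≤ m)) (y k))) =
        ‖∑ k ∈ Finset.range N, sg (decide (k ≤ m)) (y k)‖ := by
      rw [hg2, RCLike.ofReal_re]
    rw [map_sum, map_sum] at h2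
    have h3 : ∀ j, RCLike.re (g (sg (decide (j ≤ m)) (y j))) ≤ 1 := by
      intro j
      refine (RCLike.re_le_norm _).trans ((g.le_opNorm _).trans ?_)
      refine mul_le_one₀ hg1 (norm_nonneg _) ?_
      have : ‖sg (decide (j ≤ m)) (y j)‖ = ‖y j‖ := by
        unfold sg
        split_ifs
        · rfl
        · exact norm_neg _
      rw [this]
      exact hy1 j
    have h4 : ∑ j ∈ (Finset.range N).erase k, RCLike.re (g (sg (decide (j ≤ m)) (y j))) ≤
        (N : ℝ) - 1 := by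
      refine (Finset.sum_le_sum fun j _ => h3 j).trans ?_
      rw [Finset.sum_const, Finset.card_erase_of_mem (Finset.mem_range.2 hk), Finset.card_range,
        nsmul_eq_mul, mul_one, Nat.cast_sub (by omega)]
      simp
    have h5 := Finset.add_sum_erase (Finset.range N)
      (fun j => RCLike.re (g (sg (decide (j ≤ m)) (y j)))) (Finset.mem_range.2 hk)
    linarith
  choose g hg1 hg2 using hg
  have hφ : ∀ m : ℕ, ∃ φ : StrongDual 𝕜 X, ‖φ‖ ≤ 1 ∧
      ∀ k, 1 - ε / 4 ≤ RCLike.re (φ (sg (decide (k ≤ m)) (y k))) := by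
    intro m
    obtain ⟨φ, hφ1, hφ2⟩ := exists_weakstar_limit (g m) (hg1 m) U
    refine ⟨φ, hφ1, fun k => ?_⟩
    have h1 := (RCLike.continuous_re.tendsto _).comp (hφ2 (sg (decide (k ≤ m)) (y k)))
    refine ge_of_tendsto h1 ?_
    have h2 : ∀ᶠ N in (U : Filter ℕ), k < N := hU (eventually_gt_atTop k)
    exact h2.mono fun N hN => hg2 m N k hN
  choose φ hφ1 hφ2 using hφ
  have hφpos : ∀ m k, k ≤ m → 1 - ε / 4 ≤ RCLike.re (φ m (y k)) := by
    intro m k hk
    have := hφ2 m k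
    rwa [show sg (decide (k ≤ m)) (y k) = y k by simp [sg, hk]] at this
  have hφneg : ∀ m k, m < k → RCLike.re (φ m (y k)) ≤ -(1 - ε / 4) := by
    intro m k hk
    have := hφ2 m k
    rw [show sg (decide (k ≤ m)) (y k) = -y k by simp [sg, not_le.2 hk], map_neg, map_neg] at this
    linarith
  obtain ⟨ψ, hψ1, hψ2⟩ := exists_weakstar_limit φ hφ1 U
  have hψ : ∀ k, 1 - ε / 4 ≤ RCLike.re (ψ (y k)) := by
    intro k
    have h1 := (RCLike.continuous_re.tendsto _).comp (hψ2 (y k))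
    refine ge_of_tendsto h1 ?_
    have h2 : ∀ᶠ m in (U : Filter ℕ), k ≤ m := hU (eventually_ge_atTop k)
    exact h2.mono fun m hm => hφpos m k hm
  obtain ⟨u, hu1, hu2⟩ := exists_weakstar_limit
    (fun k => NormedSpace.inclusionInDoubleDual 𝕜 X (y k)) (R := 1)
    (fun k => (NormedSpace.double_dual_bound 𝕜 X (y k)).trans (hy1 k)) U
  have hu2' : ∀ θ : StrongDual 𝕜 X, Tendsto (fun k => RCLike.re (θ (y k))) (U : Filter ℕ)
      (𝓝 (RCLike.re (u θ))) := fun θ => (RCLike.continuous_re.tendsto _).comp (hu2 θ)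
  have huψ : 1 - ε / 4 ≤ RCLike.re (u ψ) := ge_of_tendsto (hu2' ψ) (Eventually.of_forall hψ)
  have huφ : ∀ m, RCLike.re (u (φ m)) ≤ -(1 - ε / 4) := by
    intro m
    refine le_of_tendsto (hu2' (φ m)) ?_
    have h2 : ∀ᶠ k in (U : Filter ℕ), m < k := hU (eventually_gt_atTop m)
    exact h2.mono fun k hk => hφneg m k hk
  have huf : 1 - ε / 2 ≤ RCLike.re (u f) := ge_of_tendsto (hu2' f) (Eventually.of_forall hy2)
  -- decomposition
  obtain ⟨v, ⟨x0, hv⟩, z0, hz0, huv⟩ := Submodule.mem_sup.1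
    (show u ∈ LinearMap.range (NormedSpace.inclusionInDoubleDual 𝕜 X :
      X →ₗ[𝕜] StrongDual 𝕜 (StrongDual 𝕜 X)) ⊔ Z by rw [hZ.sup_eq_top]; trivial)
  have hv' : NormedSpace.inclusionInDoubleDual 𝕜 X x0 = v := hv
  have hnorm : ‖x0‖ + ‖z0‖ ≤ 1 := by
    rw [← hn x0 z0 hz0, hv', huv]
    exact hu1
  have hueval : ∀ θ : StrongDual 𝕜 X, u θ = θ x0 + z0 θ := by
    intro θ
    rw [← huv, ← hv', add_apply, NormedSpace.dual_def]
  have h1 : ∀ᶠ m in (U : Filter ℕ), RCLike.re (ψ x0) - ε / 4 < RCLike.re (φ m x0) := by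
    have h2 : Tendsto (fun m => RCLike.re (φ m x0)) (U : Filter ℕ) (𝓝 (RCLike.re (ψ x0))) :=
      (RCLike.continuous_re.tendsto _).comp (hψ2 x0)
    exact (tendsto_order.1 h2).1 _ (by linarith)
  obtain ⟨m, hm⟩ := h1.exists
  have h2 : 2 - 3 * (ε / 4) ≤ RCLike.re (z0 (ψ - φ m)) := by
    have h3 := huφ m
    rw [hueval, map_add] at h3 huψ
    rw [map_sub, map_sub]
    linarith
  have h3 : RCLike.re (z0 (ψ - φ m)) ≤ ‖z0‖ * 2 := by
    refine (RCLike.re_le_norm _).trans ((z0.le_opNorm _).trans ?_)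
    gcongr
    refine (norm_sub_le ψ (φ m)).trans ?_
    have h4 := hφ1 m
    linarith
  have h4 : ‖x0‖ ≤ 3 * (ε / 8) := by linarith
  refine ⟨z0, hz0, by linarith [norm_nonneg x0], ?_⟩
  rw [hueval, map_add] at huf
  have h5 : RCLike.re (f x0) ≤ ‖x0‖ := by
    refine (RCLike.re_le_norm _).trans ((f.le_opNorm x0).trans ?_)
    rw [hf, one_mul]
  linarith

end Pool.Agent.H19
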