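import Pool.Agent.H19.DaugavetDefs
import Pool.Agent.H19.Goldstine

set_option autoImplicit false
set_option maxSynthPendingDepth 5

open Filter Topology

namespace Pool.Agent.H19

section General

variable {𝕜 : Type*} [RCLike 𝕜]

/-- Hahn-Banach extension through an embedding. -/
theorem exists_factor {V W : Type*} [NormedAddCommGroup V] [NormedSpace 𝕜 V]
    [NormedAddCommGroup W] [NormedSpace 𝕜 W] (Φ : V →L[𝕜] W) (Λ : V →L[𝕜] 𝕜) {C : ℝ}
    (hC : 0 ≤ C) (hΦ : ∀ a, ‖a‖ ≤ C * ‖Φ a‖) :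
    ∃ G : W →L[𝕜] 𝕜, (∀ a, G (Φ a) = Λ a) ∧ ‖G‖ ≤ C * ‖Λ‖ := by
  have hinj : Function.Injective (Φ : V →ₗ[𝕜] W) := by
    intro a b hab
    have h1 : Φ (a - b) = 0 := by
      rw [map_sub, sub_eq_zero]; exact hab
    have h2 := hΦ (a - b)
    rw [h1, norm_zero, mul_zero] at h2
    exact sub_eq_zero.1 (norm_le_zero_iff.1 h2)
  let e := LinearEquiv.ofInjective (Φ : V →ₗ[𝕜] W) hinj
  have he : ∀ w, Φ (e.symm w) = w := fun w => by
    have := e.apply_symm_apply w
    exact congrArg Subtype.val this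
  let Λ' : LinearMap.range (Φ : V →ₗ[𝕜] W) →L[𝕜] 𝕜 :=
    LinearMap.mkContinuous ((Λ : V →ₗ[𝕜] 𝕜).comp e.symm.toLinearMap) (C * ‖Λ‖) (by
      intro w
      change ‖Λ (e.symm w)‖ ≤ _
      refine (Λ.le_opNorm _).trans ?_
      have h1 := hΦ (e.symm w)
      rw [he] at h1
      calc ‖Λ‖ * ‖e.symm w‖ ≤ ‖Λ‖ * (C * ‖(w : W)‖) := by gcongr
        _ = C * ‖Λ‖ * ‖w‖ := by rw [Submodule.coe_norm]; ring)
  obtain ⟨G, hG1, hG2⟩ := exists_extension_norm_eq _ Λ'
  refine ⟨G, fun a => ?_, ?_⟩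
  · have h1 := hG1 (e a)
    have h2 : ((e a : LinearMap.range (Φ : V →ₗ[𝕜] W)) : W) = Φ a := rfl
    rw [h2] at h1
    rw [h1]
    change Λ (e.symm (e a)) = _
    rw [e.symm_apply_apply]
  · rw [hG2]
    exact LinearMap.mkContinuous_norm_le _ (by positivity) _

/-- norm of a functional on a finite sup-product -/
theorem sum_norm_single_le {N W : Type*} [Fintype N] [DecidableEq N] [NormedAddCommGroup W]
    [NormedSpace 𝕜 W] (G : (N → W) →L[𝕜] 𝕜) :
    ∑ t, ‖G.comp (ContinuousLinearMap.single 𝕜 (fun _ : N => W) t)‖ ≤ ‖G‖ := by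
  refine le_of_forall_pos_le_add fun ε hε => ?_
  have hcard : 0 < (Fintype.card N : ℝ) + 1 := by positivity
  have h1 : ∀ t, ∃ x : W, ‖x‖ ≤ 1 ∧
      ‖G.comp (ContinuousLinearMap.single 𝕜 (fun _ : N => W) t)‖ - ε / (Fintype.card N + 1) ≤
        RCLike.re (G.comp (ContinuousLinearMap.single 𝕜 (fun _ : N => W) t) x) := fun t =>
    exists_re_ge _ (by positivity)
  choose x hx1 hx2 using h1
  have h2 : G x = ∑ t, G.comp (ContinuousLinearMap.single 𝕜 (fun _ : N => W) t) (x t) := by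
    conv_lhs => rw [← Finset.univ_sum_single x]
    rw [map_sum]
    rfl
  have h3 : RCLike.re (G x) ≤ ‖G‖ := by
    refine (RCLike.re_le_norm _).trans ((G.le_opNorm _).trans ?_)
    refine mul_le_of_le_one_right (norm_nonneg _) ?_
    exact (pi_norm_le_iff_of_nonneg zero_le_one).2 hx1
  rw [h2, map_sum] at h3
  have h4 := Finset.sum_le_sum fun t (_ : t ∈ Finset.univ) => hx2 t
  rw [Finset.sum_sub_distrib, Finset.sum_const, Finset.card_univ, nsmul_eq_mul] at h4
  have h5 : (Fintype.card N : ℝ) * (ε / (Fintype.card N + 1)) ≤ ε := by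
    rw [mul_div_assoc', div_le_iff₀ hcard]
    nlinarith
  linarith

/-- Finite-dimensional duality `L(F, X^*)^* = F ⊗ X^{**}`, in the form needed here. -/
theorem finDim_approx {X F ι : Type*} [NormedAddCommGroup X] [NormedSpace 𝕜 X]
    [NormedAddCommGroup F] [NormedSpace 𝕜 F] [FiniteDimensional 𝕜 F] [Fintype ι]
    (D : StrongDual 𝕜 (StrongDual 𝕜 X) →L[𝕜] F →L[𝕜] 𝕜) (hD : ‖D‖ ≤ 1)
    (ζ : ι → StrongDual 𝕜 (StrongDual 𝕜 X)) (v : ι → F) {ε : ℝ} (hε : 0 < ε) :
    ∃ a : F →L[𝕜] StrongDual 𝕜 X, ‖a‖ ≤ 1 ∧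
      RCLike.re (∑ j, D (ζ j) (v j)) - ε ≤ RCLike.re (∑ j, ζ j (a (v j))) := by
  classical
  let Λ : (F →L[𝕜] StrongDual 𝕜 X) →L[𝕜] 𝕜 :=
    ∑ j, (ζ j).comp (ContinuousLinearMap.apply 𝕜 (StrongDual 𝕜 X) (v j))
  have hΛ : ∀ a, Λ a = ∑ j, ζ j (a (v j)) := by
    intro a
    simp only [Λ, sum_apply]
    rfl
  have key : ‖∑ j, D (ζ j) (v j)‖ ≤ ‖Λ‖ := by
    have h0 : ∀ δ : ℝ, 0 < δ → δ < 1 → (1 - δ) * ‖∑ j, D (ζ j) (v j)‖ ≤ ‖Λ‖ := by
      intro δ hδ hδ1
      -- net
      have : ProperSpace F := FiniteDimensional.proper_rclike 𝕜 F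
      obtain ⟨N, hN1, hN2⟩ := (isCompact_sphere (0 : F) 1).elim_finite_subcover_image
        (b := Metric.sphere (0 : F) 1) (c := fun t => Metric.ball t δ)
        (fun t _ => Metric.isOpen_ball) (by
          intro t ht
          exact Set.mem_biUnion ht (Metric.mem_ball_self hδ))
      obtain ⟨hNfin, hNcov⟩ := hN2
      let M : Finset F := hNfin.toFinset
      have hM : ∀ t ∈ M, ‖t‖ = 1 := by
        intro t ht
        have := hN1 (hNfin.mem_toFinset.1 ht)
        exact mem_sphere_zero_iff_norm.1 this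
      have hcov : ∀ f : F, ‖f‖ = 1 → ∃ t ∈ M, ‖f - t‖ ≤ δ := by
        intro f hf
        have h1 : f ∈ Metric.sphere (0 : F) 1 := mem_sphere_zero_iff_norm.2 hf
        obtain ⟨t, ht, ht'⟩ := Set.mem_iUnion₂.1 (hNcov h1)
        refine ⟨t, hNfin.mem_toFinset.2 ht, ?_⟩
        rw [← dist_eq_norm]
        exact (Metric.mem_ball.1 ht').le
      let Φ : (F →L[𝕜] StrongDual 𝕜 X) →L[𝕜] (M → StrongDual 𝕜 X) :=
        ContinuousLinearMap.pi fun t : M => ContinuousLinearMap.apply 𝕜 (StrongDual 𝕜 X) (t : F)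
      have hΦa : ∀ a (t : M), Φ a t = a t := fun a t => rfl
      have hΦ : ∀ a, ‖a‖ ≤ (1 - δ)⁻¹ * ‖Φ a‖ := by
        intro a
        have h1 : ‖a‖ ≤ ‖Φ a‖ + δ * ‖a‖ := by
          refine ContinuousLinearMap.opNorm_le_of_unit_norm (by positivity) fun f hf => ?_
          obtain ⟨t, ht, ht'⟩ := hcov f hf
          have h2 : a f = a t + a (f - t) := by rw [← map_add]; congr 1; abel
          rw [h2]
          refine (norm_add_le _ _).trans ?_
          have h3 : ‖a t‖ ≤ ‖Φ a‖ := norm_le_pi_norm (Φ a) ⟨t, ht⟩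
          have h4 : ‖a (f - t)‖ ≤ δ * ‖a‖ := by
            refine (a.le_opNorm _).trans ?_
            rw [mul_comm]
            gcongr
          linarith
        rw [inv_mul_eq_div, le_div_iff₀ (by linarith)]
        linarith
      obtain ⟨G, hG1, hG2⟩ := exists_factor Φ Λ (C := (1 - δ)⁻¹)
        (inv_nonneg.2 (by linarith)) hΦ
      let ζ' : M → StrongDual 𝕜 (StrongDual 𝕜 X) := fun t =>
        G.comp (ContinuousLinearMap.single 𝕜 (fun _ : M => StrongDual 𝕜 X) t)
      have hGζ : ∀ x : M → StrongDual 𝕜 X, G x = ∑ t, ζ' t (x t) := by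
        intro x
        conv_lhs => rw [← Finset.univ_sum_single x]
        rw [map_sum]
        rfl
      have hζ' : ∑ t, ‖ζ' t‖ ≤ (1 - δ)⁻¹ * ‖Λ‖ := (sum_norm_single_le G).trans hG2
      -- equality of the tensors
      have hten : ∀ (θ : F →L[𝕜] 𝕜), ∑ j, θ (v j) • ζ j = ∑ t : M, θ (t : F) • ζ' t := by
        intro θ
        ext x
        have h1 := hG1 (θ.smulRight x)
        rw [hΛ, hGζ] at h1
        simp only [sum_apply, smul_apply, smul_eq_mul]
        have h2 : ∀ t : M, ζ' t (Φ (θ.smulRight x) t) = θ t * ζ' t x := by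
          intro t
          rw [hΦa, ContinuousLinearMap.smulRight_apply, map_smul, smul_eq_mul]
        have h3 : ∀ j, ζ j ((θ.smulRight x) (v j)) = θ (v j) * ζ j x := by
          intro j
          rw [ContinuousLinearMap.smulRight_apply, map_smul, smul_eq_mul]
        rw [Finset.sum_congr rfl fun t _ => h2 t, Finset.sum_congr rfl fun j _ => h3 j] at h1
        exact h1.symm
      let b := Module.finBasis 𝕜 F
      let θ : Fin (Module.finrank 𝕜 F) → (F →L[𝕜] 𝕜) := fun i =>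
        LinearMap.toContinuousLinearMap (b.coord i)
      have hθ : ∀ f : F, ∑ i, θ i f • b i = f := fun f => b.sum_repr f
      have hexp : ∀ (z : StrongDual 𝕜 (StrongDual 𝕜 X)) (f : F),
          D z f = ∑ i, D (θ i f • z) (b i) := by
        intro z f
        conv_lhs => rw [← hθ f]
        rw [map_sum]
        refine Finset.sum_congr rfl fun i _ => ?_
        rw [map_smul, map_smul, smul_apply]
      have heq : ∑ j, D (ζ j) (v j) = ∑ t : M, D (ζ' t) (t : F) := by
        have h1 : ∑ j, D (ζ j) (v j) = ∑ i, D (∑ j, θ i (v j) • ζ j) (b i) := by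
          rw [Finset.sum_congr rfl fun j _ => hexp (ζ j) (v j), Finset.sum_comm]
          refine Finset.sum_congr rfl fun i _ => ?_
          rw [map_sum, sum_apply]
        have h2 : ∑ t : M, D (ζ' t) (t : F) = ∑ i, D (∑ t : M, θ i (t : F) • ζ' t) (b i) := by
          rw [Finset.sum_congr rfl fun t _ => hexp (ζ' t) (t : F), Finset.sum_comm]
          refine Finset.sum_congr rfl fun i _ => ?_
          rw [map_sum, sum_apply]
        rw [h1, h2]
        exact Finset.sum_congr rfl fun i _ => by rw [hten]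
      have hfin : ‖∑ j, D (ζ j) (v j)‖ ≤ (1 - δ)⁻¹ * ‖Λ‖ := by
        rw [heq]
        refine (norm_sum_le _ _).trans (le_trans (Finset.sum_le_sum fun t _ => ?_) hζ')
        refine ((D (ζ' t)).le_opNorm _).trans ?_
        rw [hM _ t.2, mul_one]
        refine (D.le_opNorm _).trans ?_
        exact mul_le_of_le_one_left (norm_nonneg _) hD
      rw [inv_mul_eq_div, le_div_iff₀ (by linarith)] at hfin
      linarith
    -- let δ → 0
    by_contra hcon
    push Not at hcon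
    set A := ‖∑ j, D (ζ j) (v j)‖ with hA
    have hApos : 0 < A := lt_of_le_of_lt (norm_nonneg _) hcon
    have h1 := h0 (min (1 / 2) ((A - ‖Λ‖) / (2 * A))) (by
      refine lt_min (by norm_num) ?_
      apply div_pos <;> linarith) (lt_of_le_of_lt (min_le_left _ _) (by norm_num))
    have h2 : min (1 / 2) ((A - ‖Λ‖) / (2 * A)) * A ≤ (A - ‖Λ‖) / 2 := by
      calc min (1 / 2) ((A - ‖Λ‖) / (2 * A)) * A ≤ (A - ‖Λ‖) / (2 * A) * A := by
            gcongr
            exact min_le_right _ _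
        _ = (A - ‖Λ‖) / 2 := by field_simp
    linarith
  obtain ⟨a, ha1, ha2⟩ := exists_re_ge Λ hε
  refine ⟨a, ha1, ?_⟩
  rw [← hΛ]
  have := RCLike.re_le_norm (∑ j, D (ζ j) (v j))
  linarith

end General

section MAP

variable {𝕜 : Type*} [RCLike 𝕜] {X Y : Type*} [NormedAddCommGroup X] [NormedSpace 𝕜 X]
  [NormedAddCommGroup Y] [NormedSpace 𝕜 Y]

/-- Approximation of bilinear forms on `X^{**} × Y` by bilinear forms on `X × Y`, if `X^{**}` or
`Y` has the metric approximation property. -/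
theorem bilinear_approx (hMAP : HasMAP 𝕜 (StrongDual 𝕜 (StrongDual 𝕜 X)) ∨ HasMAP 𝕜 Y)
    (D : StrongDual 𝕜 (StrongDual 𝕜 X) →L[𝕜] Y →L[𝕜] 𝕜) (hD : ‖D‖ ≤ 1) {ι : Type*} [Fintype ι]
    (ζ : ι → StrongDual 𝕜 (StrongDual 𝕜 X)) (y : ι → Y) {ε : ℝ} (hε : 0 < ε) :
    ∃ A : Y →L[𝕜] StrongDual 𝕜 X, ‖A‖ ≤ 1 ∧
      RCLike.re (∑ j, D (ζ j) (y j)) - ε ≤ RCLike.re (∑ j, ζ j (A (y j))) := by
  classical
  rcases hMAP with hM | hM
  · -- the bidual has the MAP
    set R : ℝ := ∑ j, ‖y j‖ with hR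
    have hR0 : 0 ≤ R := Finset.sum_nonneg fun j _ => norm_nonneg _
    obtain ⟨S, hS1, hS2, hS3⟩ := hM (Set.range ζ) (Set.finite_range ζ).isCompact
      (ε / (2 * (R + 1))) (by positivity)
    have hS3' : ∀ j, ‖S (ζ j) - ζ j‖ < ε / (2 * (R + 1)) := fun j => hS3 _ ⟨j, rfl⟩
    let E := LinearMap.range
      (S : StrongDual 𝕜 (StrongDual 𝕜 X) →ₗ[𝕜] StrongDual 𝕜 (StrongDual 𝕜 X))
    have : FiniteDimensional 𝕜 E := hS1
    have : FiniteDimensional 𝕜 (StrongDual 𝕜 E) := inferInstance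
    let S' : StrongDual 𝕜 (StrongDual 𝕜 X) →L[𝕜] E := S.codRestrict E fun z => ⟨z, rfl⟩
    have hS' : ∀ z, ‖S' z‖ ≤ ‖z‖ := fun z => by
      have : ‖S z‖ ≤ ‖z‖ := (S.le_opNorm z).trans (mul_le_of_le_one_left (norm_nonneg _) hS2)
      exact this
    let ρ : Y →L[𝕜] StrongDual 𝕜 E := (D.comp E.subtypeL).flip
    have hρ : ∀ y e, ρ y e = D (e : StrongDual 𝕜 (StrongDual 𝕜 X)) y := fun y e => rfl
    have hρn : ‖ρ‖ ≤ 1 := by
      refine ContinuousLinearMap.opNorm_le_bound₂ _ zero_le_one fun y e => ?_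
      rw [hρ, one_mul]
      refine ((D _).le_opNorm _).trans ?_
      rw [mul_comm]
      gcongr
      refine (D.le_opNorm _).trans ?_
      exact mul_le_of_le_one_left (norm_nonneg _) hD
    let D' : StrongDual 𝕜 (StrongDual 𝕜 X) →L[𝕜] (StrongDual 𝕜 E) →L[𝕜] 𝕜 :=
      (NormedSpace.inclusionInDoubleDual 𝕜 E).comp S'
    have hD'a : ∀ z θ, D' z θ = θ (S' z) := fun z θ => rfl
    have hD' : ‖D'‖ ≤ 1 := by
      refine ContinuousLinearMap.opNorm_le_bound₂ _ zero_le_one fun z θ => ?_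
      rw [hD'a, one_mul, mul_comm]
      refine (θ.le_opNorm _).trans ?_
      gcongr
      exact hS' z
    obtain ⟨a, ha1, ha2⟩ := finDim_approx D' hD' ζ (fun j => ρ (y j)) (half_pos hε)
    refine ⟨a.comp ρ, ?_, ?_⟩
    · refine (ContinuousLinearMap.opNorm_comp_le _ _).trans ?_
      exact mul_le_one₀ ha1 (norm_nonneg _) hρn
    · have h1 : ∀ j, D' (ζ j) (ρ (y j)) = D (S (ζ j)) (y j) := fun j => rfl
      have h2 : ‖∑ j, D (ζ j) (y j) - ∑ j, D' (ζ j) (ρ (y j))‖ ≤ ε / 2 := by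
        rw [← Finset.sum_sub_distrib]
        refine (norm_sum_le _ _).trans ?_
        have h3 : ∀ j, ‖D (ζ j) (y j) - D' (ζ j) (ρ (y j))‖ ≤ ε / (2 * (R + 1)) * ‖y j‖ := by
          intro j
          rw [h1, ← sub_apply, ← map_sub]
          refine ((D _).le_opNorm _).trans ?_
          gcongr
          refine (D.le_opNorm _).trans ((mul_le_of_le_one_left (norm_nonneg _) hD).trans ?_)
          rw [norm_sub_rev]
          exact (hS3' j).le
        refine (Finset.sum_le_sum fun j _ => h3 j).trans ?_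
        rw [← Finset.mul_sum, ← hR, div_mul_eq_mul_div, div_le_div_iff₀ (by positivity) two_pos]
        nlinarith
      have h3 := RCLike.re_le_norm (∑ j, D (ζ j) (y j) - ∑ j, D' (ζ j) (ρ (y j)))
      rw [map_sub] at h3
      simp only [ContinuousLinearMap.comp_apply]
      linarith
  · -- `Y` has the MAP
    set R : ℝ := ∑ j, ‖ζ j‖ with hR
    have hR0 : 0 ≤ R := Finset.sum_nonneg fun j _ => norm_nonneg _
    obtain ⟨S, hS1, hS2, hS3⟩ := hM (Set.range y) (Set.finite_range y).isCompact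
      (ε / (2 * (R + 1))) (by positivity)
    have hS3' : ∀ j, ‖S (y j) - y j‖ < ε / (2 * (R + 1)) := fun j => hS3 _ ⟨j, rfl⟩
    let E := LinearMap.range (S : Y →ₗ[𝕜] Y)
    have : FiniteDimensional 𝕜 E := hS1
    let ρ : Y →L[𝕜] E := S.codRestrict E fun z => ⟨z, rfl⟩
    have hρn : ‖ρ‖ ≤ 1 := by
      refine ContinuousLinearMap.opNorm_le_bound _ zero_le_one fun z => ?_
      rw [one_mul]
      have : ‖S z‖ ≤ ‖z‖ := (S.le_opNorm z).trans (mul_le_of_le_one_left (norm_nonneg _) hS2)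
      exact this
    let D' : StrongDual 𝕜 (StrongDual 𝕜 X) →L[𝕜] E →L[𝕜] 𝕜 := (D.flip.comp E.subtypeL).flip
    have hD'a : ∀ z (e : E), D' z e = D z (e : Y) := fun z θ => rfl
    have hD' : ‖D'‖ ≤ 1 := by
      refine ContinuousLinearMap.opNorm_le_bound₂ _ zero_le_one fun z e => ?_
      rw [hD'a, one_mul]
      refine ((D _).le_opNorm _).trans ?_
      gcongr
      · exact (D.le_opNorm _).trans (mul_le_of_le_one_left (norm_nonneg _) hD)
      · exact le_rfl
    obtain ⟨a, ha1, ha2⟩ := finDim_approx D' hD' ζ (fun j => ρ (y j)) (half_pos hε)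
    refine ⟨a.comp ρ, ?_, ?_⟩
    · refine (ContinuousLinearMap.opNorm_comp_le _ _).trans ?_
      exact mul_le_one₀ ha1 (norm_nonneg _) hρn
    · have h1 : ∀ j, D' (ζ j) (ρ (y j)) = D (ζ j) (S (y j)) := fun j => rfl
      have h2 : ‖∑ j, D (ζ j) (y j) - ∑ j, D' (ζ j) (ρ (y j))‖ ≤ ε / 2 := by
        rw [← Finset.sum_sub_distrib]
        refine (norm_sum_le _ _).trans ?_
        have h3 : ∀ j, ‖D (ζ j) (y j) - D' (ζ j) (ρ (y j))‖ ≤ ε / (2 * (R + 1)) * ‖ζ j‖ := by
          intro j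
          rw [h1, ← map_sub]
          refine ((D _).le_opNorm _).trans ?_
          rw [mul_comm]
          gcongr
          · rw [norm_sub_rev]
            exact (hS3' j).le
          · exact (D.le_opNorm _).trans (mul_le_of_le_one_left (norm_nonneg _) hD)
        refine (Finset.sum_le_sum fun j _ => h3 j).trans ?_
        rw [← Finset.mul_sum, ← hR, div_mul_eq_mul_div, div_le_div_iff₀ (by positivity) two_pos]
        nlinarith
      have h3 := RCLike.re_le_norm (∑ j, D (ζ j) (y j) - ∑ j, D' (ζ j) (ρ (y j)))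
      rw [map_sub] at h3
      simp only [ContinuousLinearMap.comp_apply]
      linarith

end MAP

end Pool.Agent.H19
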