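import Mathlib

set_option autoImplicit false
set_option maxSynthPendingDepth 5

open scoped TensorProduct

namespace Pool.Agent.H19

section Def

variable (𝕜 : Type*) [RCLike 𝕜] (X Y : Type*) [NormedAddCommGroup X] [NormedSpace 𝕜 X]
  [NormedAddCommGroup Y] [NormedSpace 𝕜 Y]

/-- The algebraic tensor product `X ⊗ Y`, as a type to be normed by the projective norm. -/
def ProjTensor : Type _ := X ⊗[𝕜] Y

noncomputable instance : AddCommGroup (ProjTensor 𝕜 X Y) :=
  inferInstanceAs (AddCommGroup (X ⊗[𝕜] Y))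

noncomputable instance : Module 𝕜 (ProjTensor 𝕜 X Y) := inferInstanceAs (Module 𝕜 (X ⊗[𝕜] Y))

/-- The elementary tensor `x ⊗ y`. -/
def ProjTensor.mk (x : X) (y : Y) : ProjTensor 𝕜 X Y := (x ⊗ₜ[𝕜] y : X ⊗[𝕜] Y)

variable {X Y}

/-- All values `∑ ‖x_i‖ ‖y_i‖` over the finite representations `u = ∑ x_i ⊗ y_i`. -/
def ProjTensor.values (u : ProjTensor 𝕜 X Y) : Set ℝ :=
  {r | ∃ (n : ℕ) (x : Fin n → X) (y : Fin n → Y),
    u = ∑ i, ProjTensor.mk 𝕜 X Y (x i) (y i) ∧ r = ∑ i, ‖x i‖ * ‖y i‖}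

/-- The projective norm: the infimum of `∑ ‖x_i‖ ‖y_i‖` over the finite representations
`u = ∑ x_i ⊗ y_i`. -/
noncomputable instance : Norm (ProjTensor 𝕜 X Y) := ⟨fun u => sInf (ProjTensor.values 𝕜 u)⟩

end Def

variable {𝕜 : Type*} [RCLike 𝕜] {X Y : Type*} [NormedAddCommGroup X] [NormedSpace 𝕜 X]
  [NormedAddCommGroup Y] [NormedSpace 𝕜 Y]

theorem ProjTensor.norm_def (u : ProjTensor 𝕜 X Y) : ‖u‖ = sInf (ProjTensor.values 𝕜 u) := rfl

theorem ProjTensor.mk_add_left (x x' : X) (y : Y) :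
    ProjTensor.mk 𝕜 X Y (x + x') y = ProjTensor.mk 𝕜 X Y x y + ProjTensor.mk 𝕜 X Y x' y :=
  TensorProduct.add_tmul x x' y

theorem ProjTensor.mk_add_right (x : X) (y y' : Y) :
    ProjTensor.mk 𝕜 X Y x (y + y') = ProjTensor.mk 𝕜 X Y x y + ProjTensor.mk 𝕜 X Y x y' :=
  TensorProduct.tmul_add x y y'

theorem ProjTensor.mk_smul_left (c : 𝕜) (x : X) (y : Y) :
    ProjTensor.mk 𝕜 X Y (c • x) y = c • ProjTensor.mk 𝕜 X Y x y :=
  TensorProduct.smul_tmul' c x y

theorem ProjTensor.mk_smul_right (c : 𝕜) (x : X) (y : Y) :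
    ProjTensor.mk 𝕜 X Y x (c • y) = c • ProjTensor.mk 𝕜 X Y x y :=
  TensorProduct.tmul_smul c x y

theorem ProjTensor.exists_rep (u : ProjTensor 𝕜 X Y) : ∃ (n : ℕ) (x : Fin n → X) (y : Fin n → Y),
    u = ∑ i, ProjTensor.mk 𝕜 X Y (x i) (y i) := by
  refine TensorProduct.induction_on (motive := fun u : X ⊗[𝕜] Y => ∃ (n : ℕ) (x : Fin n → X)
    (y : Fin n → Y), (u : ProjTensor 𝕜 X Y) = ∑ i, ProjTensor.mk 𝕜 X Y (x i) (y i)) u ?_ ?_ ?_
  · exact ⟨0, Fin.elim0, Fin.elim0, by simp; rfl⟩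
  · intro x y
    exact ⟨1, fun _ => x, fun _ => y, by simp; rfl⟩
  · rintro u v ⟨n, x, y, hu⟩ ⟨m, x', y', hv⟩
    refine ⟨n + m, Fin.append x x', Fin.append y y', ?_⟩
    rw [Fin.sum_univ_add]
    simp only [Fin.append_left, Fin.append_right]
    rw [← hu, ← hv]
    rfl

theorem ProjTensor.values_nonempty (u : ProjTensor 𝕜 X Y) : (ProjTensor.values 𝕜 u).Nonempty := by
  obtain ⟨n, x, y, h⟩ := ProjTensor.exists_rep u
  exact ⟨_, n, x, y, h, rfl⟩

theorem ProjTensor.values_nonneg {u : ProjTensor 𝕜 X Y} {r : ℝ}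
    (hr : r ∈ ProjTensor.values 𝕜 u) : 0 ≤ r := by
  obtain ⟨n, x, y, _, rfl⟩ := hr
  exact Finset.sum_nonneg fun i _ => by positivity

theorem ProjTensor.bddBelow (u : ProjTensor 𝕜 X Y) : BddBelow (ProjTensor.values 𝕜 u) :=
  ⟨0, fun _ hr => ProjTensor.values_nonneg hr⟩

theorem ProjTensor.norm_le_of_mem {u : ProjTensor 𝕜 X Y} {r : ℝ}
    (hr : r ∈ ProjTensor.values 𝕜 u) : ‖u‖ ≤ r := csInf_le (ProjTensor.bddBelow u) hr

theorem ProjTensor.values_add {u v : ProjTensor 𝕜 X Y} {r s : ℝ}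
    (hr : r ∈ ProjTensor.values 𝕜 u) (hs : s ∈ ProjTensor.values 𝕜 v) :
    r + s ∈ ProjTensor.values 𝕜 (u + v) := by
  obtain ⟨n, x, y, hu, rfl⟩ := hr
  obtain ⟨m, x', y', hv, rfl⟩ := hs
  refine ⟨n + m, Fin.append x x', Fin.append y y', ?_, ?_⟩
  · rw [Fin.sum_univ_add]
    simp only [Fin.append_left, Fin.append_right]
    rw [← hu, ← hv]
  · rw [Fin.sum_univ_add]
    simp only [Fin.append_left, Fin.append_right]

theorem ProjTensor.values_smul {u : ProjTensor 𝕜 X Y} {r : ℝ} (c : 𝕜)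
    (hr : r ∈ ProjTensor.values 𝕜 u) : ‖c‖ * r ∈ ProjTensor.values 𝕜 (c • u) := by
  obtain ⟨n, x, y, hu, rfl⟩ := hr
  refine ⟨n, fun i => c • x i, y, ?_, ?_⟩
  · rw [hu, Finset.smul_sum]
    exact Finset.sum_congr rfl fun i _ => (ProjTensor.mk_smul_left _ _ _).symm
  · rw [Finset.mul_sum]
    exact Finset.sum_congr rfl fun i _ => by rw [norm_smul, mul_assoc]

theorem ProjTensor.norm_smul_le' (c : 𝕜) (u : ProjTensor 𝕜 X Y) : ‖c • u‖ ≤ ‖c‖ * ‖u‖ := by
  rcases eq_or_ne c 0 with rfl | hc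
  · rw [zero_smul, norm_zero, zero_mul]
    refine ProjTensor.norm_le_of_mem ⟨0, Fin.elim0, Fin.elim0, by simp, by simp⟩
  · have hc' : 0 < ‖c‖ := norm_pos_iff.2 hc
    rw [← div_le_iff₀' hc']
    refine le_csInf (ProjTensor.values_nonempty u) fun r hr => ?_
    rw [div_le_iff₀' hc']
    exact ProjTensor.norm_le_of_mem (ProjTensor.values_smul c hr)

theorem ProjTensor.core : SeminormedSpace.Core 𝕜 (ProjTensor 𝕜 X Y) where
  norm_nonneg u := Real.sInf_nonneg fun _ hr => ProjTensor.values_nonneg hr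
  norm_smul c u := by
    apply le_antisymm (ProjTensor.norm_smul_le' c u)
    rcases eq_or_ne c 0 with rfl | hc
    · rw [norm_zero, zero_mul]
      exact Real.sInf_nonneg fun _ hr => ProjTensor.values_nonneg hr
    · have h1 := ProjTensor.norm_smul_le' c⁻¹ (c • u)
      rw [smul_smul, inv_mul_cancel₀ hc, one_smul, norm_inv] at h1
      have hc' : 0 < ‖c‖ := norm_pos_iff.2 hc
      rwa [inv_mul_eq_div, le_div_iff₀' hc'] at h1
  norm_triangle u v := by
    refine le_of_forall_pos_le_add fun ε hε => ?_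
    obtain ⟨r, hr, hr'⟩ := exists_lt_of_csInf_lt (ProjTensor.values_nonempty u)
      (show sInf (ProjTensor.values 𝕜 u) < ‖u‖ + ε / 2 by
        rw [← ProjTensor.norm_def]; linarith)
    obtain ⟨s, hs, hs'⟩ := exists_lt_of_csInf_lt (ProjTensor.values_nonempty v)
      (show sInf (ProjTensor.values 𝕜 v) < ‖v‖ + ε / 2 by
        rw [← ProjTensor.norm_def]; linarith)
    have := ProjTensor.norm_le_of_mem (ProjTensor.values_add hr hs)
    linarith

noncomputable instance : SeminormedAddCommGroup (ProjTensor 𝕜 X Y) :=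
  SeminormedAddCommGroup.ofCore ProjTensor.core

noncomputable instance : NormedSpace 𝕜 (ProjTensor 𝕜 X Y) where
  norm_smul_le := ProjTensor.norm_smul_le'

variable (𝕜 X Y) in
/-- The completed projective tensor product. -/
abbrev ProjTensorCompletion : Type _ := UniformSpace.Completion (ProjTensor 𝕜 X Y)

theorem ProjTensor.norm_mk_le (x : X) (y : Y) : ‖ProjTensor.mk 𝕜 X Y x y‖ ≤ ‖x‖ * ‖y‖ :=
  ProjTensor.norm_le_of_mem ⟨1, fun _ => x, fun _ => y, by simp, by simp⟩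

/-- the linear functional on the tensor product given by a bounded bilinear form -/
noncomputable def ProjTensor.form (A : Y →L[𝕜] StrongDual 𝕜 X) : ProjTensor 𝕜 X Y →ₗ[𝕜] 𝕜 :=
  TensorProduct.lift (LinearMap.mk₂ 𝕜 (fun (x : X) (y : Y) => A y x)
    (fun x x' y => map_add _ _ _) (fun c x y => map_smul _ _ _)
    (fun x y y' => by rw [map_add, add_apply]) (fun c x y => by rw [map_smul, smul_apply]))

theorem ProjTensor.form_mk (A : Y →L[𝕜] StrongDual 𝕜 X) (x : X) (y : Y) :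
    ProjTensor.form A (ProjTensor.mk 𝕜 X Y x y) = A y x :=
  TensorProduct.lift.tmul (f' := LinearMap.mk₂ 𝕜 (fun (x : X) (y : Y) => A y x)
    (fun x x' y => map_add _ _ _) (fun c x y => map_smul _ _ _)
    (fun x y y' => by rw [map_add, add_apply]) (fun c x y => by rw [map_smul, smul_apply])) x y

theorem ProjTensor.norm_form_le (A : Y →L[𝕜] StrongDual 𝕜 X) (hA : ‖A‖ ≤ 1)
    (u : ProjTensor 𝕜 X Y) : ‖ProjTensor.form A u‖ ≤ ‖u‖ := by
  refine le_csInf (ProjTensor.values_nonempty u) ?_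
  rintro r ⟨n, x, y, hu, rfl⟩
  rw [hu, map_sum]
  refine (norm_sum_le _ _).trans (Finset.sum_le_sum fun i _ => ?_)
  rw [ProjTensor.form_mk, mul_comm]
  refine ((A (y i)).le_opNorm (x i)).trans ?_
  gcongr
  exact (A.le_opNorm _).trans (mul_le_of_le_one_left (norm_nonneg _) hA)

/-- the bilinear form of a functional on the completed projective tensor product -/
noncomputable def bil (g : ProjTensorCompletion 𝕜 X Y →L[𝕜] 𝕜) : Y →L[𝕜] StrongDual 𝕜 X :=
  LinearMap.mkContinuous₂ (LinearMap.mk₂ 𝕜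
    (fun (y : Y) (x : X) => g (ProjTensor.mk 𝕜 X Y x y : ProjTensor 𝕜 X Y))
    (fun y y' x => by
      rw [ProjTensor.mk_add_right, UniformSpace.Completion.coe_add, map_add])
    (fun c y x => by
      rw [ProjTensor.mk_smul_right, UniformSpace.Completion.coe_smul, map_smul])
    (fun y x x' => by
      rw [ProjTensor.mk_add_left, UniformSpace.Completion.coe_add, map_add])
    (fun c y x => by
      rw [ProjTensor.mk_smul_left, UniformSpace.Completion.coe_smul, map_smul])) ‖g‖ (by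
    intro y x
    rw [LinearMap.mk₂_apply, mul_assoc]
    refine (g.le_opNorm _).trans ?_
    gcongr
    rw [UniformSpace.Completion.norm_coe, mul_comm]
    exact ProjTensor.norm_mk_le x y)

theorem bil_apply (g : ProjTensorCompletion 𝕜 X Y →L[𝕜] 𝕜) (y : Y) (x : X) :
    bil g y x = g (ProjTensor.mk 𝕜 X Y x y : ProjTensor 𝕜 X Y) := rfl

theorem norm_bil_le (g : ProjTensorCompletion 𝕜 X Y →L[𝕜] 𝕜) : ‖bil g‖ ≤ ‖g‖ :=
  LinearMap.mkContinuous₂_norm_le _ (norm_nonneg g) _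

theorem le_norm_bil (g : ProjTensorCompletion 𝕜 X Y →L[𝕜] 𝕜) : ‖g‖ ≤ ‖bil g‖ := by
  refine ContinuousLinearMap.opNorm_le_bound _ (norm_nonneg _) fun u => ?_
  refine UniformSpace.Completion.induction_on u ?_ fun u => ?_
  · exact isClosed_le (by fun_prop) (by fun_prop)
  · rw [UniformSpace.Completion.norm_coe]
    rcases eq_or_lt_of_le (norm_nonneg (bil g)) with h0 | h0
    · obtain ⟨n, x, y, hu⟩ := ProjTensor.exists_rep u
      have h1 : bil g = 0 := norm_eq_zero.1 h0.symm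
      have h2 : (u : ProjTensorCompletion 𝕜 X Y) =
          ∑ i, ((ProjTensor.mk 𝕜 X Y (x i) (y i) : ProjTensor 𝕜 X Y) :
            ProjTensorCompletion 𝕜 X Y) := by
        rw [hu]
        exact map_sum (UniformSpace.Completion.toComplL (𝕜 := 𝕜)) _ _
      rw [h2, map_sum, ← h0, zero_mul]
      refine le_of_eq (norm_eq_zero.2 (Finset.sum_eq_zero fun i _ => ?_))
      rw [← bil_apply, h1]
      rfl
    · rw [← div_le_iff₀' h0]
      refine le_csInf (ProjTensor.values_nonempty u) ?_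
      rintro r ⟨n, x, y, hu, rfl⟩
      rw [div_le_iff₀' h0]
      have h2 : (u : ProjTensorCompletion 𝕜 X Y) =
          ∑ i, ((ProjTensor.mk 𝕜 X Y (x i) (y i) : ProjTensor 𝕜 X Y) :
            ProjTensorCompletion 𝕜 X Y) := by
        rw [hu]
        exact map_sum (UniformSpace.Completion.toComplL (𝕜 := 𝕜)) _ _
      rw [h2, map_sum, Finset.mul_sum]
      refine (norm_sum_le _ _).trans (Finset.sum_le_sum fun i _ => ?_)
      rw [← bil_apply]
      refine ((bil g (y i)).le_opNorm (x i)).trans ?_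
      have := (bil g).le_opNorm (y i)
      calc ‖bil g (y i)‖ * ‖x i‖ ≤ ‖bil g‖ * ‖y i‖ * ‖x i‖ := by gcongr
        _ = ‖bil g‖ * (‖x i‖ * ‖y i‖) := by ring

end Pool.Agent.H19
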