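import Pool.Agent.H19.DaugavetSingular
import Pool.Agent.H19.FinDimExt
import Pool.Agent.H19.ProjTensor

set_option autoImplicit false
set_option maxSynthPendingDepth 5

open Filter Topology

namespace Pool.Agent.H19

section General

variable {𝕜 : Type*} [RCLike 𝕜] {P : Type*} [NormedAddCommGroup P] [NormedSpace 𝕜 P]

theorem norm_one_sub_le (c : 𝕜) (hc : ‖c‖ ≤ 1) {ε : ℝ} (h : 1 - ε ≤ RCLike.re c) :
    ‖1 - c‖ ≤ Real.sqrt (2 * ε) := by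
  apply Real.le_sqrt_of_sq_le
  have h1 : ‖1 - c‖ ^ 2 = 1 - 2 * RCLike.re c + ‖c‖ ^ 2 := by
    rw [← RCLike.normSq_eq_def', ← RCLike.normSq_eq_def', RCLike.normSq_sub]
    simp
    ring
  rw [h1]
  have h2 : ‖c‖ ^ 2 ≤ 1 := by nlinarith [norm_nonneg c]
  linarith

/-- A slice criterion for the Daugavet property. -/
theorem daugavet_of_slices
    (h : ∀ (f : P →L[𝕜] 𝕜) (u : P), ‖f‖ = 1 → ∀ ε : ℝ, 0 < ε → ε ≤ 1 → ∃ v : P, ‖v‖ ≤ 1 ∧
      1 - ε ≤ RCLike.re (f v) ∧ ‖u‖ + 1 - ε ≤ ‖u + v‖) : DaugavetProperty 𝕜 P := by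
  intro T hT
  -- rank one representation
  obtain ⟨⟨u0, hu0⟩, hu0ne, hspan⟩ := finrank_eq_one_iff'.1 hT
  have hu0' : u0 ≠ 0 := fun h0 => hu0ne (Subtype.ext h0)
  obtain ⟨g, hg1, hg2⟩ := exists_dual_vector 𝕜 u0 (norm_ne_zero_iff.2 hu0')
  have hn : (‖u0‖ : 𝕜) ≠ 0 := by
    rw [Ne, RCLike.ofReal_eq_zero]; exact norm_ne_zero_iff.2 hu0'
  let f0 : P →L[𝕜] 𝕜 := ((‖u0‖ : 𝕜))⁻¹ • (g.comp T)
  have hf0 : ∀ v, T v = f0 v • u0 := by
    intro v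
    obtain ⟨c, hc⟩ := hspan ⟨T v, ⟨v, rfl⟩⟩
    have hc' : c • u0 = T v := congrArg Subtype.val hc
    have : f0 v = c := by
      change ((‖u0‖ : 𝕜))⁻¹ * g (T v) = c
      rw [← hc', map_smul, hg2, smul_eq_mul]
      field_simp
    rw [this, hc']
  have hf0ne : f0 ≠ 0 := by
    intro h0
    obtain ⟨w, hw⟩ := hu0
    have hw' : T w = u0 := hw
    have := hf0 w
    rw [h0, zero_apply, zero_smul, hw'] at this
    exact hu0' this
  have hf0n : 0 < ‖f0‖ := norm_pos_iff.2 hf0ne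
  have hf0n' : ((‖f0‖ : ℝ) : 𝕜) ≠ 0 := by
    rw [Ne, RCLike.ofReal_eq_zero]; exact hf0n.ne'
  -- normalise
  let f : P →L[𝕜] 𝕜 := ((‖f0‖ : 𝕜))⁻¹ • f0
  let u : P := (‖f0‖ : 𝕜) • u0
  have hf : ‖f‖ = 1 := by
    rw [norm_smul, norm_inv, RCLike.norm_ofReal, abs_of_pos hf0n, inv_mul_cancel₀ hf0n.ne']
  have hTv : ∀ v, T v = f v • u := by
    intro v
    rw [hf0]
    change f0 v • u0 = (((‖f0‖ : 𝕜))⁻¹ * f0 v) • ((‖f0‖ : 𝕜) • u0)
    rw [smul_smul]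
    congr 1
    field_simp
  have hTn : ‖T‖ = ‖u‖ := by
    have : T = f.smulRight u := ContinuousLinearMap.ext hTv
    rw [this, ContinuousLinearMap.norm_smulRight_apply, hf, one_mul]
  apply le_antisymm
  · refine (norm_add_le _ _).trans ?_
    have := ContinuousLinearMap.norm_id_le (𝕜 := 𝕜) (E := P)
    linarith
  · rw [hTn]
    -- lower bound
    have key : ∀ ε : ℝ, 0 < ε → ε ≤ 1 →
        ‖u‖ + 1 - ε - Real.sqrt (2 * ε) * ‖u‖ ≤ ‖ContinuousLinearMap.id 𝕜 P + T‖ := by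
      intro ε hε hε1
      obtain ⟨v, hv1, hv2, hv3⟩ := h f u hf ε hε hε1
      have h1 : (ContinuousLinearMap.id 𝕜 P + T) v = (u + v) - (1 - f v) • u := by
        change v + T v = _
        rw [hTv, sub_smul, one_smul]
        abel
      have h2 : ‖(ContinuousLinearMap.id 𝕜 P + T) v‖ ≤ ‖ContinuousLinearMap.id 𝕜 P + T‖ :=
        ((ContinuousLinearMap.id 𝕜 P + T).le_opNorm v).trans
          (mul_le_of_le_one_right (norm_nonneg _) hv1)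
      have h3 : ‖u + v‖ - ‖(1 - f v) • u‖ ≤ ‖(u + v) - (1 - f v) • u‖ := norm_sub_norm_le _ _
      have h4 : ‖(1 - f v) • u‖ ≤ Real.sqrt (2 * ε) * ‖u‖ := by
        rw [norm_smul]
        gcongr
        refine norm_one_sub_le _ ?_ hv2
        refine (f.le_opNorm v).trans ?_
        rw [hf, one_mul]
        exact hv1
      rw [h1] at h2
      linarith
    have hlim : Tendsto (fun ε : ℝ => ‖u‖ + 1 - ε - Real.sqrt (2 * ε) * ‖u‖) (𝓝[>] 0)
        (𝓝 (‖u‖ + 1 - 0 - Real.sqrt (2 * 0) * ‖u‖)) := by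
      refine Tendsto.mono_left ?_ nhdsWithin_le_nhds
      exact Continuous.tendsto (by fun_prop) 0
    have hle : ∀ᶠ ε in 𝓝[>] (0 : ℝ),
        ‖u‖ + 1 - ε - Real.sqrt (2 * ε) * ‖u‖ ≤ ‖ContinuousLinearMap.id 𝕜 P + T‖ := by
      have h1 : ∀ᶠ ε in 𝓝[>] (0 : ℝ), ε ∈ Set.Ioc (0 : ℝ) 1 :=
        Ioc_mem_nhdsGT one_pos
      exact h1.mono fun ε hε => key ε hε.1 hε.2
    have := le_of_tendsto hlim hle
    simp at this
    linarith

end General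

variable {𝕜 : Type*} [RCLike 𝕜] {X Y : Type*} [NormedAddCommGroup X] [NormedSpace 𝕜 X]
  [NormedAddCommGroup Y] [NormedSpace 𝕜 Y]

/-- gluing a bilinear form on `X × Y` with an elementary one on `Z × Y` -/
theorem exists_glue
    (Z : Submodule 𝕜 (StrongDual 𝕜 (StrongDual 𝕜 X)))
    (hZ : IsCompl (LinearMap.range (NormedSpace.inclusionInDoubleDual 𝕜 X :
      X →ₗ[𝕜] StrongDual 𝕜 (StrongDual 𝕜 X))) Z)
    (hn : ∀ x : X, ∀ z ∈ Z, ‖NormedSpace.inclusionInDoubleDual 𝕜 X x + z‖ = ‖x‖ + ‖z‖)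
    (A₁ : Y →L[𝕜] StrongDual 𝕜 X) (hA₁ : ‖A₁‖ ≤ 1)
    (z : StrongDual 𝕜 (StrongDual 𝕜 X)) (hz : z ∈ Z) (y₁ : Y) :
    ∃ D : StrongDual 𝕜 (StrongDual 𝕜 X) →L[𝕜] Y →L[𝕜] 𝕜, ‖D‖ ≤ 1 ∧
      (∀ x y, D (NormedSpace.inclusionInDoubleDual 𝕜 X x) y = A₁ y x) ∧
      D z y₁ = ((‖z‖ * ‖y₁‖ : ℝ) : 𝕜) := by
  have hinj : Function.Injective (NormedSpace.inclusionInDoubleDual 𝕜 X :
      X →ₗ[𝕜] StrongDual 𝕜 (StrongDual 𝕜 X)) :=
    (NormedSpace.inclusionInDoubleDualLi (𝕜 := 𝕜) (E := X)).injective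
  let p := LinearMap.linearProjOfIsCompl Z (NormedSpace.inclusionInDoubleDual 𝕜 X :
      X →ₗ[𝕜] StrongDual 𝕜 (StrongDual 𝕜 X)) hinj hZ
  have hp1 : ∀ x, p (NormedSpace.inclusionInDoubleDual 𝕜 X x) = x := fun x =>
    LinearMap.linearProjOfIsCompl_apply_left _ _ hinj hZ x
  have hp2 : ∀ w ∈ Z, p w = 0 := fun w hw =>
    LinearMap.linearProjOfIsCompl_apply_right' _ _ hinj hZ w hw
  have hq : ∀ w, w - NormedSpace.inclusionInDoubleDual 𝕜 X (p w) ∈ Z := by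
    intro w
    obtain ⟨v, ⟨x0, hv⟩, z0, hz0, hw⟩ := Submodule.mem_sup.1
      (show w ∈ LinearMap.range (NormedSpace.inclusionInDoubleDual 𝕜 X :
        X →ₗ[𝕜] StrongDual 𝕜 (StrongDual 𝕜 X)) ⊔ Z by rw [hZ.sup_eq_top]; trivial)
    have hv' : NormedSpace.inclusionInDoubleDual 𝕜 X x0 = v := hv
    have h1 : p w = x0 := by
      rw [← hw, ← hv', map_add, hp1, hp2 z0 hz0, add_zero]
    rw [h1, hv', ← hw, add_sub_cancel_left]
    exact hz0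
  obtain ⟨ψ, hψ1, hψ2⟩ := exists_dual_vector'' 𝕜 z
  obtain ⟨η, hη1, hη2⟩ := exists_dual_vector'' 𝕜 y₁
  let B : StrongDual 𝕜 (StrongDual 𝕜 X) →ₗ[𝕜] Y →ₗ[𝕜] 𝕜 := LinearMap.mk₂ 𝕜
    (fun w y => A₁ y (p w) + ψ (w - NormedSpace.inclusionInDoubleDual 𝕜 X (p w)) * η y)
    (fun w w' y => by simp only [map_add, map_sub]; ring)
    (fun c w y => by simp only [map_smul, map_sub, smul_eq_mul]; ring)
    (fun w y y' => by simp only [map_add, add_apply]; ring)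
    (fun c w y => by simp only [map_smul, smul_apply, smul_eq_mul]; ring)
  have hB : ∀ w y, B w y = A₁ y (p w) +
      ψ (w - NormedSpace.inclusionInDoubleDual 𝕜 X (p w)) * η y := fun w y => rfl
  have hbound : ∀ w y, ‖B w y‖ ≤ 1 * ‖w‖ * ‖y‖ := by
    intro w y
    rw [hB, one_mul]
    have h1 : ‖w‖ = ‖p w‖ + ‖w - NormedSpace.inclusionInDoubleDual 𝕜 X (p w)‖ := by
      rw [← hn _ _ (hq w), add_sub_cancel]
    refine (norm_add_le _ _).trans ?_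
    rw [h1, add_mul, norm_mul]
    gcongr
    · rw [mul_comm]
      refine ((A₁ y).le_opNorm (p w)).trans ?_
      gcongr
      exact (A₁.le_opNorm y).trans (mul_le_of_le_one_left (norm_nonneg _) hA₁)
    · exact (ψ.le_opNorm _).trans (mul_le_of_le_one_left (norm_nonneg _) hψ1)
    · exact (η.le_opNorm _).trans (mul_le_of_le_one_left (norm_nonneg _) hη1)
  refine ⟨B.mkContinuous₂ 1 hbound, LinearMap.mkContinuous₂_norm_le _ zero_le_one _, ?_, ?_⟩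
  · intro x y
    rw [LinearMap.mkContinuous₂_apply, hB, hp1, sub_self, map_zero, zero_mul, add_zero]
  · rw [LinearMap.mkContinuous₂_apply, hB, hp2 z hz, map_zero, map_zero, sub_zero, hψ2, hη2,
      zero_add]
    push_cast
    rfl

theorem slices_tensor (hD : DaugavetProperty 𝕜 X) (hL : IsLEmbedded 𝕜 X)
    (hMAP : HasMAP 𝕜 (StrongDual 𝕜 (StrongDual 𝕜 X)) ∨ HasMAP 𝕜 Y)
    (f : ProjTensorCompletion 𝕜 X Y →L[𝕜] 𝕜) (u : ProjTensorCompletion 𝕜 X Y) (hf : ‖f‖ = 1)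
    (ε : ℝ) (hε : 0 < ε) (hε1 : ε ≤ 1) : ∃ v : ProjTensorCompletion 𝕜 X Y, ‖v‖ ≤ 1 ∧
      1 - ε ≤ RCLike.re (f v) ∧ ‖u‖ + 1 - ε ≤ ‖u + v‖ := by
  classical
  obtain ⟨Z, -, hZ, hn⟩ := hL
  -- approximate `u`
  obtain ⟨u', hu'⟩ : ∃ u' : ProjTensor 𝕜 X Y,
      ‖u - (u' : ProjTensorCompletion 𝕜 X Y)‖ < ε / 8 := by
    have h1 := UniformSpace.Completion.denseRange_coe (α := ProjTensor 𝕜 X Y)
    obtain ⟨w, hw⟩ := Metric.denseRange_iff.1 h1 u (ε / 8) (by positivity)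
    exact ⟨w, by rwa [dist_eq_norm] at hw⟩
  obtain ⟨n, a, b, hab⟩ := ProjTensor.exists_rep u'
  -- norming bilinear form for `u'`
  obtain ⟨g, hg1, hg2⟩ := exists_dual_vector'' 𝕜 (u' : ProjTensorCompletion 𝕜 X Y)
  have hA₁ : ‖bil g‖ ≤ 1 := (norm_bil_le g).trans hg1
  have hA₁u : ∑ i, bil g (b i) (a i) = ((‖u'‖ : ℝ) : 𝕜) := by
    rw [← UniformSpace.Completion.norm_coe, ← hg2]
    have h2 : (u' : ProjTensorCompletion 𝕜 X Y) =
        ∑ i, ((ProjTensor.mk 𝕜 X Y (a i) (b i) : ProjTensor 𝕜 X Y) :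
          ProjTensorCompletion 𝕜 X Y) := by
      rw [hab]
      exact map_sum (UniformSpace.Completion.toComplL (𝕜 := 𝕜)) _ _
    rw [h2, map_sum]
    rfl
  -- the slice
  have hBf : ‖bil f‖ ≤ 1 := (norm_bil_le f).trans hf.le
  obtain ⟨y₁, hy₁, hy₁'⟩ := (bil f).exists_lt_apply_of_lt_opNorm (r := 1 - ε / 8) (by
    have := le_norm_bil f
    rw [hf] at this
    linarith)
  set xs : StrongDual 𝕜 X := bil f y₁ with hxs
  have hxsn : 0 < ‖xs‖ := by linarith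
  have hxs1 : ‖xs‖ ≤ ‖y₁‖ :=
    ((bil f).le_opNorm y₁).trans (mul_le_of_le_one_left (norm_nonneg _) hBf)
  obtain ⟨z, hz, hz1, hz2⟩ := exists_singular hD Z hZ hn (((‖xs‖⁻¹ : ℝ) : 𝕜) • xs) (by
    rw [norm_smul, RCLike.norm_ofReal, abs_of_pos (inv_pos.2 hxsn), inv_mul_cancel₀ hxsn.ne'])
    (ε := ε / 8) (by positivity)
  have hz3 : (1 - ε / 8) * ‖xs‖ ≤ RCLike.re (z xs) := by
    rw [map_smul, smul_eq_mul, RCLike.re_ofReal_mul, inv_mul_eq_div, le_div_iff₀ hxsn] at hz2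
    exact hz2
  have hz4 : 1 - ε / 4 ≤ RCLike.re (z xs) := by nlinarith
  have hz5 : 1 - ε / 8 ≤ ‖z‖ := by
    have h1 : RCLike.re (z xs) ≤ ‖z‖ * ‖xs‖ := (RCLike.re_le_norm _).trans (z.le_opNorm _)
    have h2 : (1 - ε / 8) * ‖xs‖ ≤ ‖z‖ * ‖xs‖ := hz3.trans h1
    exact le_of_mul_le_mul_right h2 hxsn
  obtain ⟨D, hD1, hD2, hD3⟩ := exists_glue Z hZ hn (bil g) hA₁ z hz y₁
  obtain ⟨A, hA1, hA2⟩ := bilinear_approx hMAP D hD1
    (Sum.elim (fun i : Fin n => NormedSpace.inclusionInDoubleDual 𝕜 X (a i)) (fun _ : Unit => z))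
    (Sum.elim b (fun _ : Unit => y₁)) (ε := ε / 8) (by positivity)
  simp only [Fintype.sum_sum_type, Sum.elim_inl, Sum.elim_inr, Finset.univ_unique,
    Finset.sum_singleton, NormedSpace.dual_def] at hA2
  rw [Finset.sum_congr rfl fun i _ => hD2 (a i) (b i), hA₁u, hD3, map_add, RCLike.ofReal_re,
    RCLike.ofReal_re] at hA2
  -- Goldstine
  obtain ⟨x, hx1, hx2⟩ := goldstine z hz1 (Sum.elim (fun _ : Unit => A y₁) (fun _ : Unit => xs))
    (ε := ε / 8) (by positivity)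
  have hx3 : ‖A y₁ x - z (A y₁)‖ < ε / 8 := hx2 (Sum.inl ())
  have hx4 : ‖xs x - z xs‖ < ε / 8 := hx2 (Sum.inr ())
  have hx3' : RCLike.re (z (A y₁)) - ε / 8 ≤ RCLike.re (A y₁ x) := by
    have h1 := RCLike.re_le_norm (z (A y₁) - A y₁ x)
    rw [map_sub, norm_sub_rev] at h1
    linarith
  have hx4' : RCLike.re (z xs) - ε / 8 ≤ RCLike.re (xs x) := by
    have h1 := RCLike.re_le_norm (z xs - xs x)
    rw [map_sub, norm_sub_rev] at h1
    linarith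
  refine ⟨(ProjTensor.mk 𝕜 X Y x y₁ : ProjTensor 𝕜 X Y), ?_, ?_, ?_⟩
  · rw [UniformSpace.Completion.norm_coe]
    exact (ProjTensor.norm_mk_le x y₁).trans (mul_le_one₀ hx1 (norm_nonneg _) hy₁.le)
  · rw [← bil_apply, ← hxs]
    linarith
  · have h1 : ‖u'‖ + 1 - ε / 2 ≤ ‖u' + ProjTensor.mk 𝕜 X Y x y₁‖ := by
      have h2 : RCLike.re (ProjTensor.form A (u' + ProjTensor.mk 𝕜 X Y x y₁)) ≤
          ‖u' + ProjTensor.mk 𝕜 X Y x y₁‖ :=
        (RCLike.re_le_norm _).trans (ProjTensor.norm_form_le A hA1 _)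
      have h3 : ProjTensor.form A (u' + ProjTensor.mk 𝕜 X Y x y₁) =
          ∑ i, A (b i) (a i) + A y₁ x := by
        rw [map_add, ProjTensor.form_mk]
        congr 1
        conv_lhs => rw [hab]
        rw [map_sum]
        exact Finset.sum_congr rfl fun i _ => ProjTensor.form_mk _ _ _
      rw [h3, map_add] at h2
      rw [map_add] at hA2
      have h4 : 1 - ε / 4 ≤ ‖z‖ * ‖y₁‖ := by
        have h5 : 1 - ε / 8 ≤ ‖y₁‖ := by linarith
        have h6 : (1 - ε / 8) * (1 - ε / 8) ≤ ‖z‖ * ‖y₁‖ := by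
          have : 0 ≤ 1 - ε / 8 := by linarith
          gcongr
        nlinarith
      linarith
    have h2 : ‖((u' + ProjTensor.mk 𝕜 X Y x y₁ : ProjTensor 𝕜 X Y) :
        ProjTensorCompletion 𝕜 X Y)‖ = ‖u' + ProjTensor.mk 𝕜 X Y x y₁‖ :=
      UniformSpace.Completion.norm_coe _
    have h3 : ‖u‖ ≤ ‖u'‖ + ε / 8 := by
      have h4 := norm_sub_norm_le u (u' : ProjTensorCompletion 𝕜 X Y)
      rw [UniformSpace.Completion.norm_coe] at h4
      linarith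
    have h4 : u + ((ProjTensor.mk 𝕜 X Y x y₁ : ProjTensor 𝕜 X Y) :
        ProjTensorCompletion 𝕜 X Y) = (u - (u' : ProjTensorCompletion 𝕜 X Y)) +
        ((u' + ProjTensor.mk 𝕜 X Y x y₁ : ProjTensor 𝕜 X Y) :
        ProjTensorCompletion 𝕜 X Y) := by
      rw [UniformSpace.Completion.coe_add]
      abel
    have h5 : ‖u' + ProjTensor.mk 𝕜 X Y x y₁‖ -
        ‖u - (u' : ProjTensorCompletion 𝕜 X Y)‖ ≤
        ‖u + ((ProjTensor.mk 𝕜 X Y x y₁ : ProjTensor 𝕜 X Y) :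
        ProjTensorCompletion 𝕜 X Y)‖ := by
      rw [h4, ← h2]
      have h6 := norm_sub_le ((u - (u' : ProjTensorCompletion 𝕜 X Y)) +
        ((u' + ProjTensor.mk 𝕜 X Y x y₁ : ProjTensor 𝕜 X Y) :
        ProjTensorCompletion 𝕜 X Y)) (u - (u' : ProjTensorCompletion 𝕜 X Y))
      rw [add_sub_cancel_left] at h6
      linarith
    linarith

end Pool.Agent.H19
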