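import Pool.Agent.H19.CKGrothendieck
import Pool.Agent.H19.BP

set_option autoImplicit false

open Filter Topology

namespace Pool.Agent.H19

variable {K : Type*} [TopologicalSpace K] [CompactSpace K]
variable {X : Type*} [NormedAddCommGroup X] [NormedSpace ℝ X]

/-- pointwise product of a scalar and a vector function -/
def fmul (f : C(K, ℝ)) (G : C(K, X)) : C(K, X) := ⟨fun t => f t • G t, by fun_prop⟩

@[simp] theorem fmul_apply (f : C(K, ℝ)) (G : C(K, X)) (t : K) : fmul f G t = f t • G t := rfl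

/-- multiplication by a fixed vector function -/
noncomputable def mulG (G : C(K, X)) : C(K, ℝ) →L[ℝ] C(K, X) :=
  LinearMap.mkContinuous
    { toFun := fun f => fmul f G
      map_add' := by
        intro f g
        ext t
        simp [add_smul]
      map_smul' := by
        intro c f
        ext t
        simp [mul_smul] } ‖G‖ (by
    intro f
    refine (ContinuousMap.norm_le _ (by positivity)).2 fun t => ?_
    simp only [LinearMap.coe_mk, AddHom.coe_mk, fmul_apply, norm_smul]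
    rw [mul_comm]
    gcongr
    · exact G.norm_coe_le_norm t
    · exact f.norm_coe_le_norm t)

@[simp] theorem mulG_apply (G : C(K, X)) (f : C(K, ℝ)) : mulG G f = fmul f G := rfl

theorem norm_mulG_le (G : C(K, X)) : ‖mulG (K := K) G‖ ≤ ‖G‖ :=
  LinearMap.mkContinuous_norm_le _ (norm_nonneg _) _

theorem key_inequality [T2Space K] 
    (hK : ¬ ∃ (J : c0 →L[ℝ] C(K, ℝ)) (Q : C(K, ℝ) →L[ℝ] c0),
      Q.comp J = ContinuousLinearMap.id ℝ _)
    (m : ℕ → (C(K, X) →L[ℝ] ℝ)) (m0 : C(K, X) →L[ℝ] ℝ) {R : ℝ} (hR : ∀ k, ‖m k‖ ≤ R)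
    (hm : ∀ F, Tendsto (fun k => m k F) atTop (𝓝 (m0 F)))
    (F : ℕ → C(K, X)) {M : ℝ} (hM : 0 < M) (hFM : ∀ k, ‖F k‖ ≤ M) (hF1 : ∀ k, m k (F k) = 1)
    (hF0 : ∀ t, Tendsto (fun k => F k t) atTop (𝓝 0)) {ε : ℝ} (hε : 0 < ε) :
    ∃ k, ‖m0‖ + 1 / M - ε ≤ ‖m k‖ := by
  have hR0 : 0 ≤ R := (norm_nonneg (m 0)).trans (hR 0)
  -- a norming function
  obtain ⟨G, hG1, hG2⟩ : ∃ G : C(K, X), ‖G‖ ≤ 1 ∧ ‖m0‖ - ε / 4 ≤ m0 G := by
    obtain ⟨G, hG1, hG2⟩ := m0.exists_lt_apply_of_lt_opNorm (r := ‖m0‖ - ε / 4) (by linarith)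
    rcases le_total 0 (m0 G) with h | h
    · refine ⟨G, hG1.le, ?_⟩
      rw [Real.norm_of_nonneg h] at hG2
      exact hG2.le
    · refine ⟨-G, by rw [norm_neg]; exact hG1.le, ?_⟩
      rw [Real.norm_of_nonpos h] at hG2
      rw [map_neg]
      exact hG2.le
  set e : ℝ := ε * M / (8 * (R + 1)) with he_def
  have he : 0 < e := by positivity
  let ψ : ℕ → C(K, ℝ) := fun k => ⟨fun t => min 1 (max 0 (‖F k t‖ / e - 1)), by fun_prop⟩
  have hψ : ∀ k t, ψ k t = min 1 (max 0 (‖F k t‖ / e - 1)) := fun k t => rfl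
  have hψ0 : ∀ k t, 0 ≤ ψ k t := fun k t => by
    rw [hψ]; exact le_min zero_le_one (le_max_left _ _)
  have hψ1 : ∀ k t, ψ k t ≤ 1 := fun k t => by
    rw [hψ]; exact min_le_left _ _
  have hψt : ∀ t, Tendsto (fun k => ψ k t) atTop (𝓝 0) := by
    intro t
    have h1 : ∀ᶠ k in atTop, ‖F k t‖ < e := by
      have h2 := (hF0 t).norm
      rw [norm_zero] at h2
      exact (tendsto_order.1 h2).2 _ he
    refine tendsto_const_nhds.congr' ?_
    filter_upwards [h1] with k hk
    rw [hψ, max_eq_left, min_eq_right zero_le_one]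
    have : ‖F k t‖ / e < 1 := (div_lt_one he).2 hk
    linarith
  -- scalar functionals
  have hlam : Tendsto (fun k => (m k).comp (mulG G) (ψ k)) atTop (𝓝 0) := by
    by_contra hnot
    apply hK
    refine complemented_of_not_tendsto (fun k => (m k).comp (mulG G)) (m0.comp (mulG G))
      (R := R) (fun k => ?_) (fun f => ?_) ψ hψ0 hψ1 hψt hnot
    · refine (ContinuousLinearMap.opNorm_comp_le _ _).trans ?_
      calc ‖m k‖ * ‖mulG G‖ ≤ R * 1 := by
            gcongr
            · exact hR k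
            · exact (norm_mulG_le G).trans hG1
        _ = R := mul_one R
    · exact hm (fmul f G)
  have h1 : ∀ᶠ k in atTop, m0 G - ε / 4 < m k G :=
    (tendsto_order.1 (hm G)).1 _ (by linarith)
  have h2 : ∀ᶠ k in atTop, m k (fmul (ψ k) G) < ε / 4 :=
    (tendsto_order.1 hlam).2 _ (by linarith)
  obtain ⟨k, hk1, hk2⟩ := (h1.and h2).exists
  refine ⟨k, ?_⟩
  -- the test function
  set H : C(K, X) := G - fmul (ψ k) G + M⁻¹ • fmul (ψ k) (F k) with hH_def
  have hH : ‖H‖ ≤ 1 := by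
    refine (ContinuousMap.norm_le _ zero_le_one).2 fun t => ?_
    have e1 : H t = (1 - ψ k t) • G t + (M⁻¹ * ψ k t) • F k t := by
      simp only [hH_def, ContinuousMap.add_apply, ContinuousMap.sub_apply, fmul_apply,
        ContinuousMap.smul_apply, smul_smul]
      rw [sub_smul, one_smul]
    rw [e1]
    refine (norm_add_le _ _).trans ?_
    rw [norm_smul, norm_smul, Real.norm_of_nonneg (by linarith [hψ1 k t]),
      Real.norm_of_nonneg (by have := hψ0 k t; positivity)]
    have e2 : ‖G t‖ ≤ 1 := (G.norm_coe_le_norm t).trans hG1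
    have e3 : ‖F k t‖ ≤ M := ((F k).norm_coe_le_norm t).trans (hFM k)
    have e4 : M⁻¹ * ψ k t * ‖F k t‖ ≤ ψ k t := by
      have := hψ0 k t
      calc M⁻¹ * ψ k t * ‖F k t‖ ≤ M⁻¹ * ψ k t * M := by gcongr
        _ = ψ k t := by field_simp
    have e5 : (1 - ψ k t) * ‖G t‖ ≤ 1 - ψ k t := by
      have := hψ1 k t
      nlinarith
    linarith
  have h3 : m k (F k - fmul (ψ k) (F k)) ≤ R * (2 * e) := by
    refine (le_abs_self _).trans (((m k).le_opNorm _).trans ?_)
    gcongr
    · exact hR k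
    · refine (ContinuousMap.norm_le _ (by positivity)).2 fun t => ?_
      have e1 : (F k - fmul (ψ k) (F k)) t = (1 - ψ k t) • F k t := by
        simp only [ContinuousMap.sub_apply, fmul_apply]
        rw [sub_smul, one_smul]
      rw [e1, norm_smul, Real.norm_of_nonneg (by linarith [hψ1 k t])]
      rcases le_total (2 * e) ‖F k t‖ with h4 | h4
      · have e2 : ψ k t = 1 := by
          rw [hψ]
          have : 2 ≤ ‖F k t‖ / e := by rwa [le_div_iff₀ he]
          rw [max_eq_right (by linarith), min_eq_left (by linarith)]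
        rw [e2]; simp; positivity
      · have := hψ0 k t
        have := hψ1 k t
        nlinarith [norm_nonneg (F k t)]
  have h4 : m k H = m k G - m k (fmul (ψ k) G) +
      M⁻¹ * (1 - m k (F k - fmul (ψ k) (F k))) := by
    rw [hH_def, map_add, map_sub, map_smul, smul_eq_mul, map_sub, hF1]
    ring
  have h5 : m k H ≤ ‖m k‖ := by
    refine (le_abs_self _).trans (((m k).le_opNorm _).trans ?_)
    exact mul_le_of_le_one_right (norm_nonneg _) hH
  have h6 : M⁻¹ * (1 - R * (2 * e)) ≤ M⁻¹ * (1 - m k (F k - fmul (ψ k) (F k))) := by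
    gcongr
  have h7 : M⁻¹ * (1 - R * (2 * e)) ≥ 1 / M - ε / 4 := by
    have h8 : M⁻¹ * (1 - R * (2 * e)) = 1 / M - (R / (R + 1)) * (ε / 4) := by
      rw [he_def]
      field_simp
      ring
    have h9 : R / (R + 1) ≤ 1 := by
      rw [div_le_one (by linarith)]; linarith
    rw [h8]
    nlinarith
  linarith

end Pool.Agent.H19
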