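import Pool.Agent.H19.KeyIneq

set_option autoImplicit false

open Filter Topology Ordinal

namespace Pool.Agent.H19

section General

variable {K : Type*} [TopologicalSpace K] [CompactSpace K]
variable {X : Type*} [NormedAddCommGroup X] [NormedSpace ℝ X]
variable {S : Type*} [TopologicalSpace S] [CompactSpace S]

/-- indicator of a clopen set -/
noncomputable def ind (U : Set S) (hU : IsClopen U) : C(S, ℝ) :=
  ⟨U.indicator (fun _ => (1 : ℝ)), by
    classical
    rw [← Set.piecewise_eq_indicator]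
    refine continuous_const.piecewise (fun a ha => ?_) continuous_const
    rw [hU.frontier_eq] at ha
    exact ha.elim⟩

theorem ind_apply (U : Set S) (hU : IsClopen U) (s : S) [Decidable (s ∈ U)] :
    ind U hU s = if s ∈ U then 1 else 0 := by
  simp [ind, Set.indicator_apply]

theorem ind_of_mem {U : Set S} (hU : IsClopen U) {s : S} (hs : s ∈ U) : ind U hU s = 1 := by
  simp [ind, hs]

theorem ind_of_notMem {U : Set S} (hU : IsClopen U) {s : S} (hs : s ∉ U) : ind U hU s = 0 := by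
  simp [ind, hs]

/-- the functional `F ↦ (Q F)(s)` -/
noncomputable def mu (Q : C(K, X) →L[ℝ] C(S, ℝ)) (s : S) : C(K, X) →L[ℝ] ℝ :=
  LinearMap.mkContinuous
    { toFun := fun F => Q F s
      map_add' := by intro F G; simp
      map_smul' := by intro c F; simp } ‖Q‖ (by
    intro F
    exact ((Q F).norm_coe_le_norm s).trans (Q.le_opNorm F))

@[simp] theorem mu_apply (Q : C(K, X) →L[ℝ] C(S, ℝ)) (s : S) (F : C(K, X)) :
    mu Q s F = Q F s := rfl

theorem norm_mu_le (Q : C(K, X) →L[ℝ] C(S, ℝ)) (s : S) : ‖mu Q s‖ ≤ ‖Q‖ :=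
  LinearMap.mkContinuous_norm_le _ (norm_nonneg Q) _

theorem step [T2Space K] [CompleteSpace X]
    (hK : ¬ ∃ (J : c0 →L[ℝ] C(K, ℝ)) (Q : C(K, ℝ) →L[ℝ] c0),
      Q.comp J = ContinuousLinearMap.id ℝ _)
    (hX : ¬ ∃ (T : c0 →L[ℝ] X) (c : ℝ), 0 < c ∧ ∀ f : c0, c * ‖f‖ ≤ ‖T f‖)
    (J : C(S, ℝ) →L[ℝ] C(K, X)) (Q : C(K, X) →L[ℝ] C(S, ℝ))
    (hQJ : Q.comp J = ContinuousLinearMap.id ℝ _)
    (γ : ℕ → S) (γ0 : S) (hγ : Tendsto γ atTop (𝓝 γ0)) (U : ℕ → Set S) (hU : ∀ k, IsClopen (U k))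
    (hγU : ∀ k, γ k ∈ U k) (hd : ∀ i j, i < j → Disjoint (U i) (U j)) :
    ∃ k, ‖mu Q γ0‖ + 1 / (2 * ‖J‖) ≤ ‖mu Q (γ k)‖ := by
  have hQJ' : ∀ f, Q (J f) = f := fun f => by
    have := congrArg (fun T => T f) hQJ
    simpa using this
  have hJ0 : J ≠ 0 := by
    rintro rfl
    have h1 := hQJ' (ind (U 0) (hU 0))
    have h2 := congrArg (fun f : C(S, ℝ) => f (γ 0)) h1
    simp only [zero_apply, map_zero, ContinuousMap.zero_apply,
      ind_of_mem (hU 0) (hγU 0)] at h2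
    exact zero_ne_one h2
  have hJ : 0 < ‖J‖ := (norm_pos_iff (a := J)).2 hJ0
  have hW : WUC (fun k => ind (U k) (hU k)) 1 := by
    refine WUC_of_disjoint _ (fun i t => ?_) (fun i t => ?_) (fun i j t hij => ?_)
    · by_cases ht : t ∈ U i
      · rw [ind_of_mem _ ht]; exact zero_le_one
      · rw [ind_of_notMem _ ht]
    · by_cases ht : t ∈ U i
      · rw [ind_of_mem _ ht]
      · rw [ind_of_notMem _ ht]; exact zero_le_one
    · by_cases ht : t ∈ U i
      · right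
        exact ind_of_notMem _ (Set.disjoint_left.1 (hd i j hij) ht)
      · left
        exact ind_of_notMem _ ht
  have hW' : ∀ t, WUC (fun k => J (ind (U k) (hU k)) t) ‖J‖ := by
    intro t s c hc
    have h1 : ∑ i ∈ s, c i • J (ind (U i) (hU i)) t =
        J (∑ i ∈ s, c i • ind (U i) (hU i)) t := by
      rw [map_sum, ContinuousMap.sum_apply]
      refine Finset.sum_congr rfl fun i _ => ?_
      rw [map_smul, ContinuousMap.smul_apply]
    rw [h1]
    refine ((J _).norm_coe_le_norm t).trans ((J.le_opNorm _).trans ?_)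
    exact mul_le_of_le_one_right (norm_nonneg _) (hW s c hc)
  have h0 : ∀ t, Tendsto (fun k => J (ind (U k) (hU k)) t) atTop (𝓝 0) := fun t =>
    (hW' t).tendsto_zero hX
  obtain ⟨k, hk⟩ := key_inequality hK (fun k => mu Q (γ k)) (mu Q γ0) (R := ‖Q‖)
    (fun k => norm_mu_le Q _) (fun F => ((Q F).continuous.tendsto γ0).comp hγ)
    (fun k => J (ind (U k) (hU k))) hJ (fun k => by
      refine (J.le_opNorm _).trans ?_
      refine mul_le_of_le_one_right (norm_nonneg _) ?_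
      exact hW.norm_le k) (fun k => by
      rw [mu_apply, hQJ', ind_of_mem _ (hγU k)]) h0 (ε := 1 / (2 * ‖J‖)) (by positivity)
  refine ⟨k, ?_⟩
  have h2 : 1 / ‖J‖ = 1 / (2 * ‖J‖) + 1 / (2 * ‖J‖) := by field_simp; norm_num
  linarith

end General

/-- the ordinal interval -/
abbrev SS := Set.Icc (0 : Ordinal.{0}) (Ordinal.omega0 ^ Ordinal.omega0)

theorem tendsto_natCast_omega0 : Tendsto (fun k : ℕ => (k : Ordinal.{0})) atTop (𝓝 ω) := by
  refine tendsto_atTop_isLUB (fun a b h => by exact_mod_cast h) ⟨?_, ?_⟩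
  · rintro _ ⟨k, rfl⟩
    exact (natCast_lt_omega0 k).le
  · intro b hb
    by_contra hcon
    push Not at hcon
    obtain ⟨n, rfl⟩ := lt_omega0.1 hcon
    have := hb ⟨n + 1, rfl⟩
    have h2 : ((n + 1 : ℕ) : Ordinal.{0}) ≤ n := this
    have h3 : n + 1 ≤ n := by exact_mod_cast h2
    omega

theorem tendsto_aux (β : Ordinal.{0}) (n : ℕ) :
    Tendsto (fun k : ℕ => β + ω ^ (n : Ordinal.{0}) * ((k + 1 : ℕ) : Ordinal.{0})) atTop
      (𝓝 (β + ω ^ ((n + 1 : ℕ) : Ordinal.{0}))) := by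
  have h1 : ω ^ ((n + 1 : ℕ) : Ordinal.{0}) = ω ^ (n : Ordinal.{0}) * ω := by
    push_cast
    rw [← Order.succ_eq_add_one, opow_succ]
  rw [h1]
  have h2 := (tendsto_natCast_omega0).comp (tendsto_add_atTop_nat 1)
  have h3 : Continuous fun x : Ordinal.{0} => β + ω ^ (n : Ordinal.{0}) * x :=
    (isNormal_add_right β).continuous.comp
      (isNormal_mul_right (opow_pos _ omega0_pos)).continuous
  exact (h3.tendsto ω).comp h2

theorem chain_step {K : Type*} [TopologicalSpace K] [CompactSpace K] [T2Space K]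
    {X : Type*} [NormedAddCommGroup X] [NormedSpace ℝ X] [CompleteSpace X]
    (hK : ¬ ∃ (J : c0 →L[ℝ] C(K, ℝ)) (Q : C(K, ℝ) →L[ℝ] c0),
      Q.comp J = ContinuousLinearMap.id ℝ _)
    (hX : ¬ ∃ (T : c0 →L[ℝ] X) (c : ℝ), 0 < c ∧ ∀ f : c0, c * ‖f‖ ≤ ‖T f‖)
    (J : C(SS, ℝ) →L[ℝ] C(K, X)) (Q : C(K, X) →L[ℝ] C(SS, ℝ))
    (hQJ : Q.comp J = ContinuousLinearMap.id ℝ _) (n : ℕ) :
    ∀ (β : Ordinal.{0}) (h : β + ω ^ (n : Ordinal.{0}) ≤ ω ^ ω),
      ∃ s : SS, ‖mu Q ⟨β + ω ^ (n : Ordinal.{0}), ⟨zero_le, h⟩⟩‖ + n * (1 / (2 * ‖J‖)) ≤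
        ‖mu Q s‖ := by
  induction n with
  | zero =>
    intro β h
    refine ⟨⟨β + ω ^ ((0 : ℕ) : Ordinal.{0}), ⟨zero_le, h⟩⟩, ?_⟩
    rw [Nat.cast_zero (R := ℝ), zero_mul, add_zero]
  | succ n ih =>
    intro β h
    have hle : ∀ k : ℕ, β + ω ^ (n : Ordinal.{0}) * ((k : ℕ) : Ordinal.{0}) ≤ 
        β + ω ^ ((n + 1 : ℕ) : Ordinal.{0}) := by
      intro k
      have h1 : ω ^ ((n + 1 : ℕ) : Ordinal.{0}) = ω ^ (n : Ordinal.{0}) * ω := by
        push_cast
        rw [← Order.succ_eq_add_one, opow_succ]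
      rw [h1]
      gcongr
      exact (natCast_lt_omega0 k).le
    let γ : ℕ → SS := fun k => ⟨β + ω ^ (n : Ordinal.{0}) * ((k + 1 : ℕ) : Ordinal.{0}),
      ⟨zero_le, (hle _).trans h⟩⟩
    let U : ℕ → Set SS := fun k => {s | β + ω ^ (n : Ordinal.{0}) * (k : Ordinal.{0}) < s.1 ∧
      s.1 ≤ β + ω ^ (n : Ordinal.{0}) * ((k + 1 : ℕ) : Ordinal.{0})}
    have hmono : StrictMono fun k : ℕ => β + ω ^ (n : Ordinal.{0}) * (k : Ordinal.{0}) := by
      intro a b hab
      have h1 : (a : Ordinal.{0}) < b := by exact_mod_cast hab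
      exact (isNormal_add_right β).strictMono
        ((isNormal_mul_right (opow_pos _ omega0_pos)).strictMono h1)
    have hU : ∀ k, IsClopen (U k) := by
      intro k
      constructor
      · have : U k = Subtype.val ⁻¹' (Set.Icc 
            (Order.succ (β + ω ^ (n : Ordinal.{0}) * (k : Ordinal.{0})))
            (β + ω ^ (n : Ordinal.{0}) * ((k + 1 : ℕ) : Ordinal.{0}))) := by
          ext s
          simp only [U, Set.mem_ofPred_eq, Set.mem_preimage, Set.mem_Icc, Order.succ_le_iff]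
        rw [this]
        exact isClosed_Icc.preimage continuous_subtype_val
      · have : U k = Subtype.val ⁻¹' (Set.Ioo 
            (β + ω ^ (n : Ordinal.{0}) * (k : Ordinal.{0}))
            (Order.succ (β + ω ^ (n : Ordinal.{0}) * ((k + 1 : ℕ) : Ordinal.{0})))) := by
          ext s
          simp only [U, Set.mem_ofPred_eq, Set.mem_preimage, Set.mem_Ioo, Order.lt_succ_iff]
        rw [this]
        exact isOpen_Ioo.preimage continuous_subtype_val
    obtain ⟨k, hk⟩ := step hK hX J Q hQJ γ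
      ⟨β + ω ^ ((n + 1 : ℕ) : Ordinal.{0}), ⟨zero_le, h⟩⟩ (by
        rw [tendsto_subtype_rng]
        exact tendsto_aux β n) U hU (fun k => ⟨hmono (Nat.lt_succ_self k), le_rfl⟩)
        (fun i j hij => by
          rw [Set.disjoint_left]
          intro s hs hs'
          have h1 := hs.2
          have h2 := hs'.1
          have h3 := hmono.monotone (Nat.succ_le_of_lt hij)
          exact absurd (h1.trans h3) (not_le.2 h2))
    have hbeta : β + ω ^ (n : Ordinal.{0}) * ((k + 1 : ℕ) : Ordinal.{0}) =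
        (β + ω ^ (n : Ordinal.{0}) * (k : Ordinal.{0})) + ω ^ (n : Ordinal.{0}) := by
      push_cast
      rw [mul_add, mul_one, add_assoc]
    obtain ⟨s, hs⟩ := ih (β + ω ^ (n : Ordinal.{0}) * (k : Ordinal.{0}))
      (by rw [← hbeta]; exact (hle _).trans h)
    refine ⟨s, ?_⟩
    have h4 : (γ k) = ⟨(β + ω ^ (n : Ordinal.{0}) * (k : Ordinal.{0})) + ω ^ (n : Ordinal.{0}),
        ⟨zero_le, by rw [← hbeta]; exact (hle _).trans h⟩⟩ := Subtype.ext hbeta
    rw [h4] at hk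
    have h5 : ((n + 1 : ℕ) : ℝ) = n + 1 := by push_cast; ring
    rw [h5]
    linarith

theorem main_theorem {K : Type*} [TopologicalSpace K] [CompactSpace K] [T2Space K]
    {X : Type*} [NormedAddCommGroup X] [NormedSpace ℝ X] [CompleteSpace X]
    (J : C(SS, ℝ) →L[ℝ] C(K, X)) (Q : C(K, X) →L[ℝ] C(SS, ℝ))
    (hQJ : Q.comp J = ContinuousLinearMap.id ℝ _) :
    (∃ (J : c0 →L[ℝ] C(K, ℝ)) (Q : C(K, ℝ) →L[ℝ] c0),
      Q.comp J = ContinuousLinearMap.id ℝ _) ∨
    (∃ (T : c0 →L[ℝ] X) (c : ℝ), 0 < c ∧ ∀ f : c0, c * ‖f‖ ≤ ‖T f‖) := by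
  by_contra hcon
  rw [not_or] at hcon
  obtain ⟨hK, hX⟩ := hcon
  have hJ0 : J ≠ 0 := by
    rintro rfl
    have h1 := congrArg (fun T => T (1 : C(SS, ℝ)) ⟨0, ⟨le_rfl, zero_le⟩⟩) hQJ
    simp at h1
  have hJ : 0 < ‖J‖ := (norm_pos_iff (a := J)).2 hJ0
  obtain ⟨n, hn⟩ := exists_nat_gt (‖Q‖ / (1 / (2 * ‖J‖)))
  rw [div_lt_iff₀ (by positivity)] at hn
  obtain ⟨s, hs⟩ := chain_step hK hX J Q hQJ n 0 (by
    rw [zero_add]
    exact opow_le_opow_right omega0_pos (natCast_lt_omega0 n).le)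
  have h1 := norm_mu_le Q s
  have h2 := norm_nonneg (mu Q ⟨0 + ω ^ (n : Ordinal.{0}), ⟨zero_le, by
    rw [zero_add]
    exact opow_le_opow_right omega0_pos (natCast_lt_omega0 n).le⟩⟩)
  linarith

end Pool.Agent.H19
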